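import Pool.Agent.helper79.FP.Main

/-!
# MP_f09395_gt: from the third order form to positively curved homogeneous Finsler metrics
-/

set_option linter.unusedSectionVars false

noncomputable section

namespace Pool.Agent.helper79.FP

open scoped ContDiff
open Pool.Agent.Helper93.Fin
open Filter Topology

variable {𝔸 : Type*} [NormedRing 𝔸] [NormedAlgebra ℝ 𝔸] [FiniteDimensional ℝ 𝔸]
variable {g h m : Submodule ℝ 𝔸} {Q : 𝔸 →ₗ[ℝ] 𝔸 →ₗ[ℝ] ℝ} {P : 𝔸 →L[ℝ] m} {φ : m → ℝ}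
variable {G H : Subgroup 𝔸ˣ}

/-- the third order form of `φ` is positive on all orthonormal flat flags `u, b` with
`⟨grad φ(u), [𝔥, b]⟩ = 0` -/
def T3Pos (h : Submodule ℝ 𝔸) {m : Submodule ℝ 𝔸} (Q : 𝔸 →ₗ[ℝ] 𝔸 →ₗ[ℝ] ℝ) (P : 𝔸 →L[ℝ] m)
    (φ : m → ℝ) : Prop :=
  ∀ u b x s y : m, Q (u : 𝔸) u = 1 → Q (b : 𝔸) b = 1 → Q (u : 𝔸) b = 0 →
    ⁅(u : 𝔸), (b : 𝔸)⁆ = 0 → (∀ w : m, Q (x : 𝔸) w = D1 φ u w) →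
    (∀ w : m, Q (s : 𝔸) w = D2 φ u b w) → (∀ w : m, Q (y : 𝔸) w = D3 φ u b b w) →
    (∀ Y ∈ h, Q Y ⁅(b : 𝔸), (x : 𝔸)⁆ = 0) → 0 < T3N Q P φ u b x s y

theorem admits_of_T3Pos (hg : ∀ X, X ∈ g ↔ X ∈ lieAlg G) (hh : ∀ X, X ∈ h ↔ X ∈ lieAlg H)
    (hN : NData g h m Q P) (hAd : ∀ k ∈ H, ∀ Z ∈ m, Adj k Z ∈ m)
    (hAdh : ∀ k ∈ H, ∀ Z ∈ h, Adj k Z ∈ h)
    (hAdQ : ∀ k ∈ H, ∀ Z ∈ m, Q (Adj k Z) (Adj k Z) = Q Z Z) (hφ : PhiN h m P φ)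
    (hφH : ∀ k ∈ H, ∀ u v : m, (v : 𝔸) = Adj k u → φ v = φ u) (hT : T3Pos h Q P φ) :
    AdmitsPositive G H m := by
  obtain ⟨t₁, ht₁, H1⟩ := pert hN hφ hT
  obtain ⟨hL, hpos, hR⟩ := H1 (t₁ / 2) (by positivity) (by linarith)
  have hinv : ∀ k ∈ H, ∀ u v : m, (v : 𝔸) = Adj k u → LN Q (t₁ / 2) φ v = LN Q (t₁ / 2) φ u := by
    intro k hk u v huv
    unfold LN
    rw [hφH k hk u v huv, huv, hAdQ k hk u u.2]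
  obtain ⟨hF, hLag⟩ := invFinsler_of hg hh hN.red hAd hAdh hL (LN_hom hφ.hom _) hinv hpos
  refine ⟨_, hF, fun y v hyv => ?_⟩
  rw [flag_pos_iff hg hh hN.red hF hyv, hLag]
  exact hR y v hyv

end Pool.Agent.helper79.FP
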