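import Pool.Agent.helper79.FP.Defs

/-!
# MP_f09395_gt: perturbation of a normal homogeneous metric, basic lemmas
-/

set_option linter.unusedSectionVars false

noncomputable section

namespace Pool.Agent.helper79.FP

open scoped ContDiff
open Pool.Agent.Helper93.Fin
open Filter Topology

variable {𝔸 : Type*} [NormedRing 𝔸] [NormedAlgebra ℝ 𝔸]
variable {g h m : Submodule ℝ 𝔸} {Q : 𝔸 →ₗ[ℝ] 𝔸 →ₗ[ℝ] ℝ} {P : 𝔸 →L[ℝ] m} {φ : m → ℝ}

theorem mg (hN : NData g h m Q P) (w : m) : (w : 𝔸) ∈ g := hN.red.m_le w.2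

theorem lg (hN : NData g h m Q P) {X Y : 𝔸} (hX : X ∈ g) (hY : Y ∈ g) : ⁅X, Y⁆ ∈ g :=
  hN.red.lie X hX Y hY

theorem lm (hN : NData g h m Q P) (a b : m) : ⁅(a : 𝔸), (b : 𝔸)⁆ ∈ g :=
  lg hN (mg hN a) (mg hN b)

theorem Qmh (hN : NData g h m Q P) (w : m) {Y : 𝔸} (hY : Y ∈ h) : Q (w : 𝔸) Y = 0 := by
  rw [hN.Qsymm]; exact hN.Qhm Y hY w w.2

theorem Q_P (hN : NData g h m Q P) (w : m) {Z : 𝔸} (hZ : Z ∈ g) :
    Q (w : 𝔸) (P Z : m) = Q (w : 𝔸) Z := by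
  have h1 := Qmh hN w (hN.red.res Z hZ)
  rw [map_sub] at h1
  linarith

theorem Q_P' (hN : NData g h m Q P) (w : m) {Z : 𝔸} (hZ : Z ∈ g) :
    Q (P Z : m) (w : 𝔸) = Q Z (w : 𝔸) := by
  rw [hN.Qsymm, Q_P hN w hZ, hN.Qsymm]

theorem Q_nonneg (hN : NData g h m Q P) {X : 𝔸} (hX : X ∈ g) : 0 ≤ Q X X := by
  by_cases h0 : X = 0
  · simp [h0]
  · exact (hN.Qpos X hX h0).le

theorem Q_zero (hN : NData g h m Q P) {X : 𝔸} (hX : X ∈ g) (h0 : Q X X ≤ 0) : X = 0 := by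
  by_contra hne
  exact absurd (hN.Qpos X hX hne) (not_lt.2 h0)

theorem Qm_pos (hN : NData g h m Q P) {w : m} (hw : w ≠ 0) : 0 < Q (w : 𝔸) w :=
  hN.Qpos _ (mg hN w) fun h0 => hw (Subtype.ext h0)

theorem skew (X Y : 𝔸) : ⁅X, Y⁆ = -⁅Y, X⁆ := by
  simp only [Ring.lie_def]; abel

theorem Q_self_lie (hN : NData g h m Q P) (X Y : 𝔸) : Q X ⁅Y, X⁆ = 0 := by
  have h1 : Q X ⁅Y, X⁆ = Q ⁅X, Y⁆ X := (hN.Qinv X Y X).symm
  have h2 : Q ⁅X, Y⁆ X = - Q X ⁅Y, X⁆ := by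
    rw [skew X Y, map_neg, LinearMap.neg_apply, hN.Qsymm]
  linarith

theorem Q_self_lie' (hN : NData g h m Q P) (X Y : 𝔸) : Q X ⁅X, Y⁆ = 0 := by
  rw [skew, map_neg, Q_self_lie hN, neg_zero]

variable [FiniteDimensional ℝ 𝔸]

/-- the restriction of `Q` to `𝔪` -/
def BN (m : Submodule ℝ 𝔸) (Q : 𝔸 →ₗ[ℝ] 𝔸 →ₗ[ℝ] ℝ) : m →L[ℝ] m →L[ℝ] ℝ :=
  (Qc Q).bilinearComp m.subtypeL m.subtypeL

@[simp] theorem BN_apply (a b : m) : BN m Q a b = Q (a : 𝔸) b := by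
  simp [BN]

theorem BN_symm (hN : NData g h m Q P) (a b : m) : BN m Q a b = BN m Q b a := by
  rw [BN_apply, BN_apply, hN.Qsymm]

theorem BN_pos (hN : NData g h m Q P) (w : m) (hw : w ≠ 0) : 0 < BN m Q w w := by
  rw [BN_apply]; exact Qm_pos hN hw

theorem LN_eq' (t : ℝ) : (LN Q t φ : m → ℝ) = fun u => (1 / 2) * BN m Q u u + t * φ u :=
  funext fun u => by rw [BN_apply]; rfl

theorem LN_smooth (hφ : ContDiffOn ℝ ∞ φ {0}ᶜ) (t : ℝ) : ContDiffOn ℝ ∞ (LN Q t φ) {0}ᶜ := by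
  rw [LN_eq']
  refine ContDiffOn.add (contDiffOn_const.mul ?_) (contDiffOn_const.mul hφ)
  exact ((BN m Q).contDiff.clm_apply contDiff_id).contDiffOn

theorem LN_D1 (hN : NData g h m Q P) (hφ : ContDiffOn ℝ ∞ φ {0}ᶜ) (t : ℝ) {u : m}
    (hu : u ≠ 0) (a : m) : D1 (LN Q t φ) u a = Q (u : 𝔸) a + t * D1 φ u a := by
  rw [LN_eq', D1]
  have h1 : HasFDerivAt (fun u : m => BN m Q u u)
      ((BN m Q u).comp (ContinuousLinearMap.id ℝ m) + (BN m Q).flip (id u)) u :=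
    ((BN m Q).hasFDerivAt).clm_apply (hasFDerivAt_id u)
  have h2 := (h1.const_mul (1 / 2)).add
    (((differentiableAt_of_ne hφ hu).hasFDerivAt).const_mul t)
  have h3 : HasFDerivAt (fun u : m => (1 / 2) * BN m Q u u + t * φ u) _ u := h2
  rw [h3.fderiv, ← BN_apply]
  simp only [ContinuousLinearMap.comp_id, id_eq, add_apply,
    smul_apply, ContinuousLinearMap.flip_apply, smul_eq_mul, D1]
  rw [BN_symm hN a u]
  ring

theorem LN_D2 (hN : NData g h m Q P) (hφ : ContDiffOn ℝ ∞ φ {0}ᶜ) (t : ℝ) {u : m}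
    (hu : u ≠ 0) (a b : m) : D2 (LN Q t φ) u a b = Q (a : 𝔸) b + t * D2 φ u a b := by
  rw [D2]
  have h0 : (fun z => D1 (LN Q t φ) z a) =ᶠ[nhds u]
      fun z => (BN m Q).flip a z + t * D1 φ z a :=
    (eventually_ne' hu).mono fun z hz => by
      simp only [ContinuousLinearMap.flip_apply, BN_apply]
      exact LN_D1 hN hφ t hz a
  rw [h0.fderiv_eq]
  have h2 : HasFDerivAt (fun z => (BN m Q).flip a z + t * D1 φ z a) _ u :=
    (((BN m Q).flip a).hasFDerivAt).add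
      (((differentiableAt_of_ne (D1_smooth hφ a) hu).hasFDerivAt).const_mul t)
  rw [h2.fderiv]
  simp only [add_apply,
    smul_apply, ContinuousLinearMap.flip_apply, smul_eq_mul]
  rw [BN_symm hN b a, BN_apply, D2]

theorem LN_D3 (hN : NData g h m Q P) (hφ : ContDiffOn ℝ ∞ φ {0}ᶜ) (t : ℝ) {u : m}
    (hu : u ≠ 0) (a b c : m) : D3 (LN Q t φ) u a b c = t * D3 φ u a b c := by
  rw [D3]
  have h0 : (fun z => D2 (LN Q t φ) z a b) =ᶠ[nhds u]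
      fun z => t * D2 φ z a b + BN m Q a b :=
    (eventually_ne' hu).mono fun z hz => by
      simp only
      rw [LN_D2 hN hφ t hz a b, BN_apply, add_comm]
  rw [h0.fderiv_eq]
  have h2 : HasFDerivAt (fun z => t * D2 φ z a b + BN m Q a b) _ u :=
      (((differentiableAt_of_ne (D2_smooth hφ a b) hu).hasFDerivAt).const_mul t).add_const _
  rw [h2.fderiv]
  simp only [smul_apply, smul_eq_mul]
  rw [D3]

theorem LN_D4 (hN : NData g h m Q P) (hφ : ContDiffOn ℝ ∞ φ {0}ᶜ) (t : ℝ) {u : m}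
    (hu : u ≠ 0) (a b c d : m) : D4 (LN Q t φ) u a b c d = t * D4 φ u a b c d := by
  rw [D4]
  have h0 : (fun z => D3 (LN Q t φ) z a b c) =ᶠ[nhds u]
      fun z => t * D3 φ z a b c :=
    (eventually_ne' hu).mono fun z hz => by
      simp only
      rw [LN_D3 hN hφ t hz a b c]
  rw [h0.fderiv_eq]
  have h2 : HasFDerivAt (fun z => t * D3 φ z a b c) _ u :=
      (((differentiableAt_of_ne (D3_smooth hφ a b c) hu).hasFDerivAt).const_mul t)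
  rw [h2.fderiv]
  simp only [smul_apply, smul_eq_mul]
  rw [D4]

theorem LN_hom (hh : ∀ (c : ℝ) (u : m), φ (c • u) = c ^ 2 * φ u) (t : ℝ) (c : ℝ) (u : m) :
    LN Q t φ (c • u) = c ^ 2 * LN Q t φ u := by
  unfold LN
  rw [hh]
  push_cast
  simp only [map_smul, LinearMap.smul_apply, smul_eq_mul]
  ring

/-- the perturbed Lagrangians are Minkowski Lagrangians for small `t` -/
theorem LN_mink (hN : NData g h m Q P) (hφ : PhiN h m P φ) :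
    ∃ t₀ > 0, ∀ t, |t| < t₀ → MinkData h m P (LN Q t φ) ∧
      ∀ u : m, u ≠ 0 → 0 < LN Q t φ u := by
  obtain ⟨c, hc, hc'⟩ := exists_coercive (BN m Q) (BN_pos hN)
  obtain ⟨C, hC, hC'⟩ := exists_bound_D2 hφ.smooth hφ.hom
  refine ⟨c / (2 * C), by positivity, fun t ht => ?_⟩
  have hpos : ∀ u : m, u ≠ 0 → ∀ w : m, w ≠ 0 → 0 < D2 (LN Q t φ) u w w := by
    intro u hu w hw
    rw [LN_D2 hN hφ.smooth t hu]
    have h1 := hc' w
    rw [BN_apply] at h1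
    have h2 := hC' u hu w
    have h3 : |t| * C ≤ c / 2 := by
      have := (lt_div_iff₀ (by positivity : (0 : ℝ) < 2 * C)).1 ht
      nlinarith
    have h4 : |t * D2 φ u w w| ≤ c / 2 * ‖w‖ ^ 2 := by
      rw [abs_mul]
      calc |t| * |D2 φ u w w| ≤ |t| * (C * ‖w‖ ^ 2) := by gcongr
        _ = (|t| * C) * ‖w‖ ^ 2 := by ring
        _ ≤ c / 2 * ‖w‖ ^ 2 := by gcongr
    have h5 := neg_abs_le (t * D2 φ u w w)
    have h6 : 0 < ‖w‖ := norm_pos_iff.2 hw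
    have h7 : 0 < c * ‖w‖ ^ 2 := by positivity
    nlinarith
  refine ⟨⟨LN_smooth hφ.smooth t, hpos, ?_⟩, ?_⟩
  · intro Y hY u hu
    rw [LN_D1 hN hφ.smooth t hu, hφ.inv Y hY u hu,
      Q_P hN u (lg hN (hN.red.h_le hY) (mg hN u)), Q_self_lie hN]
    simp
  · intro u hu
    have h1 := hpos u hu u hu
    rw [euler2 (LN_smooth hφ.smooth t) (LN_hom hφ.hom t) hu,
      euler1 (LN_smooth hφ.smooth t) (LN_hom hφ.hom t) hu] at h1
    linarith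

theorem phi_inv2 (hφ : PhiN h m P φ) {Y : 𝔸} (hY : Y ∈ h) {u : m}
    (hu : u ≠ 0) (z : m) : D2 φ u z (P ⁅Y, (u : 𝔸)⁆) = - D1 φ u (P ⁅Y, (z : 𝔸)⁆) := by
  have h0 : (fun x : m => fderiv ℝ φ x (Py P Y x)) =ᶠ[nhds u] fun _ => 0 := by
    filter_upwards [eventually_ne' hu] with x hx
    have := hφ.inv Y hY x hx
    rw [D1_def] at this
    simpa using this
  have h1 : HasFDerivAt (fun x : m => fderiv ℝ φ x (Py P Y x))
      ((fderiv ℝ φ u).comp (Py P Y) + (fderiv ℝ (fderiv ℝ φ) u).flip (Py P Y u)) u := by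
    have hd : DifferentiableAt ℝ (fderiv ℝ φ) u :=
      differentiableAt_of_ne (smooth_fderiv hφ.smooth) hu
    have := hd.hasFDerivAt.clm_apply (Py P Y).hasFDerivAt
    exact this
  have h2 := h1.fderiv
  rw [h0.fderiv_eq] at h2
  have h3 := congrArg (fun T : m →L[ℝ] ℝ => T z) h2
  simp at h3
  rw [D2_symm hφ.smooth hu, D2_eq' hφ.smooth hu, D1_def]
  linarith

theorem e_mem (hN : NData g h m Q P) (hφ : PhiN h m P φ) {u x : m} (hu : u ≠ 0)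
    (hx : ∀ w : m, Q (x : 𝔸) w = D1 φ u w) :
    (P ⁅(u : 𝔸), (x : 𝔸)⁆ : 𝔸) = ⁅(u : 𝔸), (x : 𝔸)⁆ := by
  have h1 := hN.red.res _ (lm hN u x)
  have h2 : ∀ Y ∈ h, Q Y ⁅(u : 𝔸), (x : 𝔸)⁆ = 0 := by
    intro Y hY
    rw [← hN.Qinv, hN.Qsymm, ← Q_P hN x (lg hN (hN.red.h_le hY) (mg hN u)), hx]
    exact hφ.inv Y hY u hu
  have h3 : Q (⁅(u : 𝔸), (x : 𝔸)⁆ - (P ⁅(u : 𝔸), (x : 𝔸)⁆ : 𝔸))
      (⁅(u : 𝔸), (x : 𝔸)⁆ - (P ⁅(u : 𝔸), (x : 𝔸)⁆ : 𝔸)) = 0 := by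
    rw [map_sub, h2 _ h1, hN.Qhm _ h1 _ (P ⁅(u : 𝔸), (x : 𝔸)⁆).2, sub_zero]
  have h4 := Q_zero hN (hN.red.h_le h1) h3.le
  exact (sub_eq_zero.1 h4).symm

theorem eb_h (hN : NData g h m Q P) (hφ : PhiN h m P φ) {u b x s : m} (hu : u ≠ 0)
    (hx : ∀ w : m, Q (x : 𝔸) w = D1 φ u w) (hs : ∀ w : m, Q (s : 𝔸) w = D2 φ u b w)
    {Y : 𝔸} (hY : Y ∈ h) : Q Y ⁅(b : 𝔸), (x : 𝔸)⁆ + Q Y ⁅(u : 𝔸), (s : 𝔸)⁆ = 0 := by
  have h1 := phi_inv2 hφ hY hu b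
  rw [← hs, ← hx, Q_P hN s (lg hN (hN.red.h_le hY) (mg hN u)),
    Q_P hN x (lg hN (hN.red.h_le hY) (mg hN b)), hN.Qsymm (s : 𝔸), hN.Qsymm (x : 𝔸),
    hN.Qinv, hN.Qinv] at h1
  linarith

end Pool.Agent.helper79.FP
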