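import Pool.Agent.helper10.FinLim5
import Pool.Agent.helper16.Fin.Lim12
import Pool.Agent.helper18.FinLim3
import Pool.Agent.helper18.FinB

/-!
# MP_f09395_gt: perturbation of a normal homogeneous metric to third order, definitions

`𝔤 = 𝔥 ⊕ 𝔪` is orthogonal for the invariant inner product `Q`, `L = ½ Q(u, u) + t φ(u)`.
-/

noncomputable section

namespace Pool.Agent.helper79.FP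

open scoped ContDiff
open Pool.Agent.Helper93.Fin
open Filter Topology

variable {𝔸 : Type*} [NormedRing 𝔸] [NormedAlgebra ℝ 𝔸]

/-- reductive decomposition `𝔤 = 𝔥 ⊕ 𝔪`, orthogonal for the invariant form `Q`, which is positive
on `𝔤`; `P` is the projection to `𝔪` -/
structure NData (g h m : Submodule ℝ 𝔸) (Q : 𝔸 →ₗ[ℝ] 𝔸 →ₗ[ℝ] ℝ) (P : 𝔸 →L[ℝ] m) : Prop where
  red : RedData g h m P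
  Qsymm : ∀ X Y, Q X Y = Q Y X
  Qinv : ∀ X Y Z, Q ⁅X, Y⁆ Z = Q X ⁅Y, Z⁆
  Qpos : ∀ X ∈ g, X ≠ 0 → 0 < Q X X
  Qhm : ∀ Y ∈ h, ∀ Z ∈ m, Q Y Z = 0

/-- `φ` is smooth outside the origin, homogeneous of degree two and invariant under `𝔥` -/
structure PhiN (h m : Submodule ℝ 𝔸) (P : 𝔸 →L[ℝ] m) (φ : m → ℝ) : Prop where
  smooth : ContDiffOn ℝ ∞ φ {0}ᶜ
  hom : ∀ (c : ℝ) (u : m), φ (c • u) = c ^ 2 * φ u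
  inv : ∀ Y ∈ h, ∀ u : m, u ≠ 0 → D1 φ u (P ⁅Y, (u : 𝔸)⁆) = 0

/-- the perturbed normal Lagrangian -/
def LN {m : Submodule ℝ 𝔸} (Q : 𝔸 →ₗ[ℝ] 𝔸 →ₗ[ℝ] ℝ) (t : ℝ) (φ : m → ℝ) (u : m) : ℝ :=
  (1 / 2) * Q (u : 𝔸) u + t * φ u

/-- the third order form at a flat flag `u, b`; `x`, `s`, `y` are the gradient of `φ` at `u` and
its first and second derivatives in the direction `b` -/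
def T3N {m : Submodule ℝ 𝔸} (Q : 𝔸 →ₗ[ℝ] 𝔸 →ₗ[ℝ] ℝ) (P : 𝔸 →L[ℝ] m) (φ : m → ℝ)
    (u b x s y : m) : ℝ :=
  - (1 / 2) * D4 φ u b b (P ⁅(u : 𝔸), (x : 𝔸)⁆) (P ⁅(u : 𝔸), (x : 𝔸)⁆)
    - D3 φ u b (P ⁅(u : 𝔸), (x : 𝔸)⁆) ((2 : ℝ) • P ⁅(b : 𝔸), (x : 𝔸)⁆ - P ⁅(u : 𝔸), (s : 𝔸)⁆)
    + (1 / 2) * D2 φ u (P ⁅(u : 𝔸), (x : 𝔸)⁆)
        (P ((2 : ℝ) • ⁅(b : 𝔸), (s : 𝔸)⁆ + ⁅(u : 𝔸), (y : 𝔸)⁆))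
    - D2 φ u (P ⁅(b : 𝔸), (x : 𝔸)⁆) (P ⁅(b : 𝔸), (x : 𝔸)⁆)
    + D2 φ u (P ⁅(b : 𝔸), (x : 𝔸)⁆) (P ⁅(u : 𝔸), (s : 𝔸)⁆)
    - D2 φ u (P ⁅(u : 𝔸), (s : 𝔸)⁆) (P ⁅(u : 𝔸), (s : 𝔸)⁆)
    - Q (P ⁅(b : 𝔸), (x : 𝔸)⁆ - P ⁅(u : 𝔸), (s : 𝔸)⁆ : m) ⁅(x : 𝔸), (s : 𝔸)⁆
    - (1 / 2) * Q ⁅(x : 𝔸), (y : 𝔸)⁆ (P ⁅(u : 𝔸), (x : 𝔸)⁆ : m)

/-- the ingredients of the curvature form of `L = ½ Q(u, u) + t φ(u)` at `u, b`: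
`x` is the gradient of `φ` at `u`, `s`, `s'` are its derivatives in the directions `b`, `ε`, and
`η(u) = t ε`, `Dη_u(b) = t ε_b`, `Dη_u(ε) = t ε'` -/
structure Jet {m : Submodule ℝ 𝔸} (Q : 𝔸 →ₗ[ℝ] 𝔸 →ₗ[ℝ] ℝ) (P : 𝔸 →L[ℝ] m) (φ : m → ℝ)
    (t : ℝ) (u b x s s' ε εb ε' κ : m) : Prop where
  hx : ∀ w : m, Q (x : 𝔸) w = D1 φ u w
  hs : ∀ w : m, Q (s : 𝔸) w = D2 φ u b w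
  hs' : ∀ w : m, Q (s' : 𝔸) w = D2 φ u ε w
  hε : ∀ w : m, Q (ε : 𝔸) w + t * D2 φ u ε w = Q ⁅(u : 𝔸), (x : 𝔸)⁆ w
  hεb : ∀ w : m, Q (εb : 𝔸) w + t * D2 φ u εb w =
    Q (⁅(b : 𝔸), (x : 𝔸)⁆ + ⁅(u : 𝔸), (s : 𝔸)⁆) w - t * D3 φ u b ε w
  hε' : ∀ w : m, Q (ε' : 𝔸) w + t * D2 φ u ε' w =
    Q (⁅(ε : 𝔸), (x : 𝔸)⁆ + ⁅(u : 𝔸), (s' : 𝔸)⁆) w - t * D3 φ u ε ε w
  hκ : ∀ w : m, Q (κ : 𝔸) w = D2 φ u εb w + D3 φ u b ε w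
  heta : eta P (LN Q t φ) u = t • ε
  hdeta : fderiv ℝ (eta P (LN Q t φ)) u b = t • εb
  hddeta : fderiv ℝ (eta P (LN Q t φ)) u (eta P (LN Q t φ) u) = t ^ 2 • ε'

/-- the cubic remainder of the curvature form; `z = [u, b]` -/
def Sform {m : Submodule ℝ 𝔸} (Q : 𝔸 →ₗ[ℝ] 𝔸 →ₗ[ℝ] ℝ) (P : 𝔸 →L[ℝ] m) (φ : m → ℝ) (t : ℝ)
    (u b x s ε εb ε' κ : m) (z : 𝔸) : ℝ :=
  - (1 / 2) * t ^ 2 * Q (P z + t • P (⁅(b : 𝔸), (x : 𝔸)⁆ + ⁅(u : 𝔸), (s : 𝔸)⁆) : m) κ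
    + (1 / 4) * t ^ 4 * Q (κ : 𝔸) κ
    + (1 / 4) * t * D2 φ u (P z + t • εb) (P z + t • εb)
    - t * D2 φ u (P z) (P z)
    - t ^ 2 * Q z ⁅(x : 𝔸), (s : 𝔸)⁆
    - t ^ 3 * D2 φ u ε (P ⁅(s : 𝔸), (b : 𝔸)⁆)
    - t ^ 2 * D3 φ u ε b (P z)
    - (1 / 2) * t ^ 3 * (D4 φ u ε ε b b + D3 φ u ε' b b)

end Pool.Agent.helper79.FP
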