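import Pool.Agent.helper79.FP.Basic

/-!
# MP_f09395_gt: the exact formula for the curvature form of `½ Q(u, u) + t φ(u)`
-/

set_option linter.unusedSectionVars false

noncomputable section

namespace Pool.Agent.helper79.FP

open scoped ContDiff
open Pool.Agent.Helper93.Fin
open Filter Topology

variable {𝔸 : Type*} [NormedRing 𝔸] [NormedAlgebra ℝ 𝔸] [FiniteDimensional ℝ 𝔸]
variable {g h m : Submodule ℝ 𝔸} {Q : 𝔸 →ₗ[ℝ] 𝔸 →ₗ[ℝ] ℝ} {P : 𝔸 →L[ℝ] m} {φ : m → ℝ}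

/-- nondegeneracy of `Q` on `𝔪` -/
theorem m_ext (hN : NData g h m Q P) {a b : m} (hab : ∀ w : m, Q (a : 𝔸) w = Q (b : 𝔸) w) :
    a = b := by
  have h1 : Q ((a - b : m) : 𝔸) ((a - b : m) : 𝔸) = 0 := by
    have h2 := hab (a - b)
    have e : Q ((a - b : m) : 𝔸) = Q (a : 𝔸) - Q (b : 𝔸) := by
      rw [Submodule.coe_sub, map_sub]
    rw [e, LinearMap.sub_apply, h2, sub_self]
  have h2 := Q_zero hN (mg hN (a - b)) h1.le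
  have h3 : a - b = 0 := Subtype.ext h2
  exact sub_eq_zero.1 h3

/-- orthogonality to `𝔥` characterises `𝔪` -/
theorem P_eq_of_orth (hN : NData g h m Q P) {X : 𝔸} (hX : X ∈ g) (h1 : ∀ Y ∈ h, Q Y X = 0) :
    (P X : 𝔸) = X := by
  have h2 := hN.red.res _ hX
  have h3 : Q (X - (P X : 𝔸)) (X - (P X : 𝔸)) = 0 := by
    rw [map_sub, h1 _ h2, hN.Qhm _ h2 _ (P X).2, sub_zero]
  exact (sub_eq_zero.1 (Q_zero hN (hN.red.h_le h2) h3.le)).symm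

theorem eb_mem (hN : NData g h m Q P) (hφ : PhiN h m P φ) {u b x s : m} (hu : u ≠ 0)
    (hx : ∀ w : m, Q (x : 𝔸) w = D1 φ u w) (hs : ∀ w : m, Q (s : 𝔸) w = D2 φ u b w) :
    (P (⁅(b : 𝔸), (x : 𝔸)⁆ + ⁅(u : 𝔸), (s : 𝔸)⁆) : 𝔸) = ⁅(b : 𝔸), (x : 𝔸)⁆ + ⁅(u : 𝔸), (s : 𝔸)⁆ :=
  P_eq_of_orth hN (g.add_mem (lm hN b x) (lm hN u s)) fun Y hY => by
    rw [map_add]; exact eb_h hN hφ hu hx hs hY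

theorem br_smul' (c : ℝ) (X Y : 𝔸) : ⁅X, c • Y⁆ = c • ⁅X, Y⁆ := by
  simp only [Ring.lie_def, smul_mul_assoc, mul_smul_comm, smul_sub]

/-- the identity `⟨e, [s, b]⟩ = -⟨[u, s], [b, x]⟩ - ⟨[u, b], [x, s]⟩`, `e = [u, x]` -/
theorem jac (hN : NData g h m Q P) (u b x s : 𝔸) :
    Q ⁅u, x⁆ ⁅s, b⁆ = - Q ⁅u, s⁆ ⁅b, x⁆ - Q ⁅u, b⁆ ⁅x, s⁆ := by
  have h1 : Q ⁅u, x⁆ ⁅s, b⁆ = Q u ⁅x, ⁅s, b⁆⁆ := hN.Qinv _ _ _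
  have h2 : ⁅x, ⁅s, b⁆⁆ = -⁅b, ⁅x, s⁆⁆ - ⁅s, ⁅b, x⁆⁆ := by
    simp only [Ring.lie_def]; noncomm_ring
  rw [h1, h2, map_sub, map_neg, ← hN.Qinv u b, ← hN.Qinv u s]
  ring

theorem Rform_exact (hN : NData g h m Q P) (hφ : PhiN h m P φ) {t : ℝ}
    {u b x s s' ε εb ε' κ : m} (hu : u ≠ 0) (J : Jet Q P φ t u b x s s' ε εb ε' κ) :
    Rform P (LN Q t φ) u b =
      (1 / 4) * Q ((P ⁅(u : 𝔸), (b : 𝔸)⁆ - t • (P ⁅(b : 𝔸), (x : 𝔸)⁆ - P ⁅(u : 𝔸), (s : 𝔸)⁆) : m) : 𝔸)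
          ((P ⁅(u : 𝔸), (b : 𝔸)⁆ - t • (P ⁅(b : 𝔸), (x : 𝔸)⁆ - P ⁅(u : 𝔸), (s : 𝔸)⁆) : m) : 𝔸)
      + Q ((⁅(u : 𝔸), (b : 𝔸)⁆ - (P ⁅(u : 𝔸), (b : 𝔸)⁆ : 𝔸))
            - (t / 2) • (⁅(b : 𝔸), (x : 𝔸)⁆ - (P ⁅(b : 𝔸), (x : 𝔸)⁆ : 𝔸)))
          ((⁅(u : 𝔸), (b : 𝔸)⁆ - (P ⁅(u : 𝔸), (b : 𝔸)⁆ : 𝔸))
            - (t / 2) • (⁅(b : 𝔸), (x : 𝔸)⁆ - (P ⁅(b : 𝔸), (x : 𝔸)⁆ : 𝔸)))
      + (3 / 4) * t ^ 2 * Q (⁅(b : 𝔸), (x : 𝔸)⁆ - (P ⁅(b : 𝔸), (x : 𝔸)⁆ : 𝔸))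
          (⁅(b : 𝔸), (x : 𝔸)⁆ - (P ⁅(b : 𝔸), (x : 𝔸)⁆ : 𝔸))
      + Sform Q P φ t u b x s ε εb ε' κ ⁅(u : 𝔸), (b : 𝔸)⁆ := by
  have hf := hφ.smooth
  obtain ⟨z, hz⟩ : ∃ z : 𝔸, z = ⁅(u : 𝔸), (b : 𝔸)⁆ := ⟨_, rfl⟩
  have hzg : z ∈ g := by rw [hz]; exact lm hN u b
  -- the relation of `ε_b` and `κ`
  have hεb : εb + t • κ = P (⁅(b : 𝔸), (x : 𝔸)⁆ + ⁅(u : 𝔸), (s : 𝔸)⁆) := by
    refine m_ext hN fun w => ?_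
    rw [Q_P' hN w (g.add_mem (lm hN b x) (lm hN u s))]
    have h1 := J.hεb w
    have h2 := J.hκ w
    rw [Submodule.coe_add, Submodule.coe_smul, map_add, LinearMap.add_apply, map_smul,
      LinearMap.smul_apply, smul_eq_mul, h2]
    linarith
  -- individual terms
  have F1 : Q (u : 𝔸) (P ⁅(b : 𝔸), z⁆ : m) = Q z z := by
    rw [Q_P hN u (lg hN (mg hN b) hzg), ← hN.Qinv, ← hz]
  have F2 : D1 φ u (P ⁅(b : 𝔸), z⁆) = - Q ⁅(b : 𝔸), (x : 𝔸)⁆ z := by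
    rw [← J.hx, Q_P hN x (lg hN (mg hN b) hzg), ← hN.Qinv, skew (x : 𝔸), map_neg,
      LinearMap.neg_apply]
  have F3 : Q ((P ⁅(b : 𝔸), (ε : 𝔸)⁆ : m) : 𝔸) (b : 𝔸) = 0 := by
    rw [Q_P' hN b (lm hN b ε), hN.Qsymm]; exact Q_self_lie' hN _ _
  have F4 : D2 φ u (P ⁅(b : 𝔸), (ε : 𝔸)⁆) b = Q (ε : 𝔸) ⁅(s : 𝔸), (b : 𝔸)⁆ := by
    rw [D2_symm hf hu, ← J.hs, Q_P hN s (lm hN b ε), ← hN.Qinv, hN.Qsymm]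
  have F5 : Q (ε : 𝔸) ⁅(s : 𝔸), (b : 𝔸)⁆ + t * D2 φ u ε (P ⁅(s : 𝔸), (b : 𝔸)⁆)
      = - Q ⁅(u : 𝔸), (s : 𝔸)⁆ ⁅(b : 𝔸), (x : 𝔸)⁆ - Q z ⁅(x : 𝔸), (s : 𝔸)⁆ := by
    have h1 := J.hε (P ⁅(s : 𝔸), (b : 𝔸)⁆)
    rw [Q_P hN ε (lm hN s b)] at h1
    rw [h1, ← e_mem hN hφ hu J.hx, Q_P hN _ (lm hN s b), e_mem hN hφ hu J.hx, jac hN, ← hz]
  -- decompositions
  obtain ⟨Zm, hZm⟩ : ∃ Zm : m, Zm = P z := ⟨_, rfl⟩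
  obtain ⟨Zh, hZh⟩ : ∃ Zh : 𝔸, Zh = z - (P z : 𝔸) := ⟨_, rfl⟩
  obtain ⟨Pm, hPm⟩ : ∃ Pm : m, Pm = P ⁅(b : 𝔸), (x : 𝔸)⁆ := ⟨_, rfl⟩
  obtain ⟨Ph, hPh⟩ : ∃ Ph : 𝔸, Ph = ⁅(b : 𝔸), (x : 𝔸)⁆ - (P ⁅(b : 𝔸), (x : 𝔸)⁆ : 𝔸) := ⟨_, rfl⟩
  obtain ⟨Qm, hQm⟩ : ∃ Qm : m, Qm = P ⁅(u : 𝔸), (s : 𝔸)⁆ := ⟨_, rfl⟩
  obtain ⟨Qh, hQh⟩ : ∃ Qh : 𝔸, Qh = ⁅(u : 𝔸), (s : 𝔸)⁆ - (P ⁅(u : 𝔸), (s : 𝔸)⁆ : 𝔸) := ⟨_, rfl⟩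
  have hZh_h : Zh ∈ h := by rw [hZh]; exact hN.red.res _ hzg
  have hPh_h : Ph ∈ h := by rw [hPh]; exact hN.red.res _ (lm hN b x)
  have hQh_h : Qh ∈ h := by rw [hQh]; exact hN.red.res _ (lm hN u s)
  have ez : z = (Zm : 𝔸) + Zh := by rw [hZh, hZm]; abel
  have eP : ⁅(b : 𝔸), (x : 𝔸)⁆ = (Pm : 𝔸) + Ph := by rw [hPh, hPm]; abel
  have eQ : ⁅(u : 𝔸), (s : 𝔸)⁆ = (Qm : 𝔸) + Qh := by rw [hQh, hQm]; abel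
  have ePQ : Qh = -Ph := by
    have h1 := eb_mem hN hφ hu J.hx J.hs
    rw [map_add, ← hPm, ← hQm, eP, eQ, Submodule.coe_add] at h1
    have h2 : Qh + Ph = ((Pm : 𝔸) + Ph + ((Qm : 𝔸) + Qh)) - ((Pm : 𝔸) + Qm) := by abel
    rw [← h1, sub_self] at h2
    exact eq_neg_of_add_eq_zero_left h2
  have O : ∀ (w : m) (Y : 𝔸), Y ∈ h → Q (w : 𝔸) Y = 0 := fun w Y hY => Qmh hN w hY
  have O' : ∀ (w : m) (Y : 𝔸), Y ∈ h → Q Y (w : 𝔸) = 0 := fun w Y hY => hN.Qhm Y hY w w.2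
  have a1 := O Zm Zh hZh_h
  have a2 := O' Zm Zh hZh_h
  have a3 := O Pm Zh hZh_h
  have a4 := O' Zm Ph hPh_h
  have a5 := O Qm Ph hPh_h
  have a6 := O' Pm Qh hQh_h
  have eεb : εb = (Pm + Qm) - t • κ := by
    rw [hPm, hQm, ← map_add, ← hεb]; abel
  have eP2 : (P (⁅(b : 𝔸), (x : 𝔸)⁆ + ⁅(u : 𝔸), (s : 𝔸)⁆) : m) = Pm + Qm := by
    rw [hPm, hQm, map_add]
  -- scalar factors in the higher derivatives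
  have S1 : ∀ a c : m, D3 φ u (t • ε) a c = t * D3 φ u ε a c := fun a c => D3_smul hf hu t ε a c
  have S2 : D4 φ u (t • ε) (t • ε) b b = t ^ 2 * D4 φ u ε ε b b := by
    rw [D4_smul hf hu, D4_smul_2 hf hu]; ring
  have S3 : D3 φ u (t ^ 2 • ε') b b = t ^ 2 * D3 φ u ε' b b := D3_smul hf hu _ _ _ _
  have S4 : P ⁅(b : 𝔸), ((t • ε : m) : 𝔸)⁆ = t • P ⁅(b : 𝔸), (ε : 𝔸)⁆ := by
    rw [Submodule.coe_smul, br_smul', map_smul]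
  unfold Rform Sform
  rw [J.hdeta, J.hddeta, J.heta, ← hz, ← hZh, ← hZm, ← hPh, ← hPm, ← hQm, eP2, S4]
  have hG : t • εb + Zm = Zm + t • εb := add_comm _ _
  rw [hG]
  simp only [LN_D1 hN hf t hu, LN_D2 hN hf t hu, LN_D3 hN hf t hu, LN_D4 hN hf t hu, S1, S2, S3,
    F1, F2, Submodule.coe_smul, map_smul, LinearMap.smul_apply, smul_eq_mul, F3,
    D2_smul hf hu t (P ⁅(b : 𝔸), (ε : 𝔸)⁆) b, F4]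
  have qs := hN.Qsymm
  -- the quadratic part
  have G1 : Q ((Zm + t • εb : m) : 𝔸) ((Zm + t • εb : m) : 𝔸)
      = Q (Zm : 𝔸) Zm + 2 * t * Q (Zm : 𝔸) Pm + 2 * t * Q (Zm : 𝔸) Qm
        + t ^ 2 * (Q (Pm : 𝔸) Pm + 2 * Q (Pm : 𝔸) Qm + Q (Qm : 𝔸) Qm)
        - 2 * t ^ 2 * Q ((Zm + t • (Pm + Qm) : m) : 𝔸) κ + t ^ 4 * Q (κ : 𝔸) κ := by
    rw [eεb]
    simp only [Submodule.coe_add, Submodule.coe_smul, Submodule.coe_sub, map_add, map_sub,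
      map_smul, LinearMap.add_apply, LinearMap.sub_apply, LinearMap.smul_apply, smul_eq_mul]
    rw [qs (κ : 𝔸) Zm, qs (κ : 𝔸) Pm, qs (κ : 𝔸) Qm, qs (Pm : 𝔸) Zm, qs (Qm : 𝔸) Zm,
      qs (Qm : 𝔸) Pm]
    ring
  have G2 : Q z z = Q (Zm : 𝔸) Zm + Q Zh Zh := by
    rw [ez]
    simp only [map_add, LinearMap.add_apply, a1, a2]
    ring
  have G3 : Q ⁅(b : 𝔸), (x : 𝔸)⁆ z = Q (Zm : 𝔸) Pm + Q Ph Zh := by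
    rw [ez, eP]
    simp only [map_add, LinearMap.add_apply, a3, a4]
    rw [qs (Pm : 𝔸) Zm]
    ring
  have G4 : Q ⁅(u : 𝔸), (s : 𝔸)⁆ ⁅(b : 𝔸), (x : 𝔸)⁆ = Q (Pm : 𝔸) Qm - Q Ph Ph := by
    rw [eP, eQ]
    simp only [map_add, LinearMap.add_apply, a5, a6]
    rw [ePQ, qs (Qm : 𝔸) Pm, map_neg, LinearMap.neg_apply]
    ring
  have G5 : Q ((Zm - t • (Pm - Qm) : m) : 𝔸) ((Zm - t • (Pm - Qm) : m) : 𝔸)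
      = Q (Zm : 𝔸) Zm - 2 * t * Q (Zm : 𝔸) Pm + 2 * t * Q (Zm : 𝔸) Qm
        + t ^ 2 * (Q (Pm : 𝔸) Pm - 2 * Q (Pm : 𝔸) Qm + Q (Qm : 𝔸) Qm) := by
    simp only [Submodule.coe_smul, Submodule.coe_sub, map_sub,
      map_smul, LinearMap.sub_apply, LinearMap.smul_apply, smul_eq_mul]
    rw [qs (Pm : 𝔸) Zm, qs (Qm : 𝔸) Zm, qs (Qm : 𝔸) Pm]
    ring
  have G6 : Q (Zh - (t / 2) • Ph) (Zh - (t / 2) • Ph)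
      = Q Zh Zh - t * Q Ph Zh + t ^ 2 / 4 * Q Ph Ph := by
    simp only [map_sub, map_smul, LinearMap.sub_apply, LinearMap.smul_apply, smul_eq_mul]
    rw [qs Zh Ph]
    ring
  rw [G4] at F5
  rw [G1, G2, G3, G5, G6]
  linear_combination t ^ 2 * F5

end Pool.Agent.helper79.FP
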