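import Pool.Agent.helper79.FP.Exact

/-!
# MP_f09395_gt: the ingredients of the curvature form exist and converge
-/

set_option linter.unusedSectionVars false

noncomputable section

namespace Pool.Agent.helper79.FP

open scoped ContDiff
open Pool.Agent.Helper93.Fin
open Filter Topology

variable {𝔸 : Type*} [NormedRing 𝔸] [NormedAlgebra ℝ 𝔸] [FiniteDimensional ℝ 𝔸]
variable {g h m : Submodule ℝ 𝔸} {Q : 𝔸 →ₗ[ℝ] 𝔸 →ₗ[ℝ] ℝ} {P : 𝔸 →L[ℝ] m} {φ : m → ℝ}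

/-- representation of functionals on `𝔪` by `Q` -/
theorem m_rep (hN : NData g h m Q P) (c : m →L[ℝ] ℝ) : ∃ x : m, ∀ w : m, Q (x : 𝔸) w = c w := by
  obtain ⟨x, hx⟩ := form_solve (BN_pos hN) c
  exact ⟨x, fun w => by rw [← BN_apply, hx]⟩

theorem smul_br' (c : ℝ) (X Y : 𝔸) : ⁅c • X, Y⁆ = c • ⁅X, Y⁆ := by
  simp only [Ring.lie_def, smul_mul_assoc, mul_smul_comm, smul_sub]

theorem exists_jet (hN : NData g h m Q P) (hφ : PhiN h m P φ) {t : ℝ} (ht : t ≠ 0)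
    (hL : MinkData h m P (LN Q t φ)) {u : m} (hu : u ≠ 0) (b : m) :
    ∃ x s s' ε εb ε' κ : m, Jet Q P φ t u b x s s' ε εb ε' κ := by
  have hf := hφ.smooth
  obtain ⟨x, hx⟩ := m_rep hN (fderiv ℝ φ u)
  obtain ⟨s, hs⟩ := m_rep hN (fderiv ℝ (fun z => D1 φ z b) u)
  obtain ⟨ε, hε⟩ : ∃ ε : m, ε = t⁻¹ • eta P (LN Q t φ) u := ⟨_, rfl⟩
  obtain ⟨εb, hεb⟩ : ∃ εb : m, εb = t⁻¹ • fderiv ℝ (eta P (LN Q t φ)) u b := ⟨_, rfl⟩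
  obtain ⟨ε', hε'⟩ : ∃ ε' : m, ε' = (t ^ 2)⁻¹ • fderiv ℝ (eta P (LN Q t φ)) u
    (eta P (LN Q t φ) u) := ⟨_, rfl⟩
  obtain ⟨s', hs'⟩ := m_rep hN (fderiv ℝ (fun z => D1 φ z ε) u)
  obtain ⟨κ, hκ⟩ := m_rep hN (fderiv ℝ (fun z => D1 φ z εb) u + fderiv ℝ (fun z => D2 φ z b ε) u)
  have hx' : ∀ w : m, Q (x : 𝔸) w = D1 φ u w := fun w => hx w
  have hs1 : ∀ w : m, Q (s : 𝔸) w = D2 φ u b w := fun w => hs w
  have hs2 : ∀ w : m, Q (s' : 𝔸) w = D2 φ u ε w := fun w => hs' w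
  have hκ' : ∀ w : m, Q (κ : 𝔸) w = D2 φ u εb w + D3 φ u b ε w := fun w => by
    rw [hκ w]; rfl
  have e1 : eta P (LN Q t φ) u = t • ε := by
    rw [hε, smul_smul, mul_inv_cancel₀ ht, one_smul]
  have e2 : fderiv ℝ (eta P (LN Q t φ)) u b = t • εb := by
    rw [hεb, smul_smul, mul_inv_cancel₀ ht, one_smul]
  have e3 : fderiv ℝ (eta P (LN Q t φ)) u (eta P (LN Q t φ) u) = t ^ 2 • ε' := by
    rw [hε', smul_smul, mul_inv_cancel₀ (pow_ne_zero 2 ht), one_smul]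
  have A1 : ∀ (a : m) (w : m), Q (a : 𝔸) (P ⁅(a : 𝔸), (w : 𝔸)⁆ : m) = 0 := fun a w => by
    rw [Q_P hN a (lm hN a w), Q_self_lie' hN]
  have A2 : ∀ (a c w : m), Q (a : 𝔸) (P ⁅(c : 𝔸), (w : 𝔸)⁆ : m) = Q ⁅(a : 𝔸), (c : 𝔸)⁆ w :=
    fun a c w => by rw [Q_P hN a (lm hN c w), hN.Qinv]
  have A3 : ∀ (X Y : 𝔸) (w : m), Q ⁅X, Y⁆ w = - Q ⁅Y, X⁆ w := fun X Y w => by
    rw [skew X Y, map_neg, LinearMap.neg_apply]
  have B1 : ∀ w : m, D1 φ u (P ⁅(u : 𝔸), (w : 𝔸)⁆) = - Q ⁅(u : 𝔸), (x : 𝔸)⁆ w := fun w => by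
    rw [← hx', A2, A3]
  refine ⟨x, s, s', ε, εb, ε', κ, hx', hs1, hs2, fun w => ?_, fun w => ?_, fun w => ?_, hκ',
    e1, e2, e3⟩
  · have h1 := eta_spec hN.red hL hu w
    rw [e1, LN_D2 hN hf t hu, LN_D1 hN hf t hu, A1, B1, D2_smul hf hu, Submodule.coe_smul,
      map_smul, LinearMap.smul_apply, smul_eq_mul] at h1
    refine mul_left_cancel₀ ht ?_
    linear_combination h1
  · have h1 := deta_spec hN.red hL hu b w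
    rw [e1, e2, LN_D2 hN hf t hu, LN_D2 hN hf t hu, LN_D1 hN hf t hu, LN_D3 hN hf t hu,
      D2_smul hf hu, D3_smul_mid hf hu, ← hs1, ← hx', A2, A2, A2, A2, A3 (b : 𝔸) (u : 𝔸),
      A3 (s : 𝔸) (u : 𝔸), A3 (x : 𝔸) (b : 𝔸), Submodule.coe_smul, map_smul,
      LinearMap.smul_apply, smul_eq_mul] at h1
    refine mul_left_cancel₀ ht ?_
    rw [map_add, LinearMap.add_apply]
    linear_combination h1
  · have h1 := deta_spec hN.red hL hu (t • ε) w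
    rw [← e1, e3, e1, LN_D2 hN hf t hu, LN_D2 hN hf t hu, LN_D1 hN hf t hu, LN_D3 hN hf t hu,
      D2_smul hf hu, D2_smul hf hu, D3_smul_mid hf hu, D3_smul hf hu, ← hs2, ← hx', A2, A2, A2,
      A2, Submodule.coe_smul, Submodule.coe_smul, smul_br', br_smul', br_smul', map_smul,
      map_smul, map_smul, map_smul, LinearMap.smul_apply, LinearMap.smul_apply,
      LinearMap.smul_apply, LinearMap.smul_apply, smul_eq_mul, smul_eq_mul, smul_eq_mul,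
      smul_eq_mul, A3 (ε : 𝔸) (u : 𝔸), A3 (s' : 𝔸) (u : 𝔸), A3 (x : 𝔸) (ε : 𝔸)] at h1
    refine mul_left_cancel₀ (pow_ne_zero 2 ht) ?_
    rw [map_add, LinearMap.add_apply]
    linear_combination h1

/-! ### convergence -/

theorem val_tendsto {ι : Type*} {l : Filter ι} {x : ι → m} {x₀ : m} (hx : Tendsto x l (𝓝 x₀)) :
    Tendsto (fun n => (x n : 𝔸)) l (𝓝 (x₀ : 𝔸)) :=
  (continuous_subtype_val.tendsto x₀).comp hx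

theorem P_tendsto {ι : Type*} {l : Filter ι} {x : ι → 𝔸} {x₀ : 𝔸} (hx : Tendsto x l (𝓝 x₀)) :
    Tendsto (fun n => P (x n)) l (𝓝 (P x₀)) := (P.continuous.tendsto x₀).comp hx

/-- convergence of solutions of `Q(x_n, w) + t_n D²φ(x_n, w) = f_n(w)` -/
theorem solveQ (hN : NData g h m Q P) (hφ : PhiN h m P φ) {ι : Type*} {l : Filter ι} {t : ι → ℝ}
    (ht : Tendsto t l (𝓝 0)) {u : ι → m} {u₀ : m} (hu₀ : u₀ ≠ 0) (hun : ∀ n, u n ≠ 0)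
    (hu : Tendsto u l (𝓝 u₀)) {x : ι → m} {x₀ : m}
    (hx : ∀ w : m, Tendsto (fun n => Q (x n : 𝔸) w + t n * D2 φ (u n) (x n) w) l
      (𝓝 (Q (x₀ : 𝔸) w))) : Tendsto x l (𝓝 x₀) := by
  have hf := hφ.smooth
  refine Lim5.solve' (B := fun n (a w : m) => Q (a : 𝔸) w + t n * D2 φ (u n) a w)
    (B₀ := fun (a w : m) => Q (a : 𝔸) w) ?_ ?_ ?_ ?_ ?_ ?_ ?_ ?_ ?_ (fun w hw => Qm_pos hN hw) hx
  · intro n a a' w
    simp only [Submodule.coe_add, map_add, LinearMap.add_apply, D2_add hf (hun n)]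
    ring
  · intro n c a w
    simp only [Submodule.coe_smul, map_smul, LinearMap.smul_apply, smul_eq_mul,
      D2_smul hf (hun n)]
    ring
  · intro n a w w'
    simp only [Submodule.coe_add, map_add, D2_add_right hf (hun n)]
    ring
  · intro n c a w
    simp only [Submodule.coe_smul, map_smul, smul_eq_mul, D2_smul_right hf (hun n)]
    ring
  · intro a a' w
    simp only [Submodule.coe_add, map_add, LinearMap.add_apply]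
  · intro c a w
    simp only [Submodule.coe_smul, map_smul, LinearMap.smul_apply, smul_eq_mul]
  · intro a w w'
    simp only [Submodule.coe_add, map_add]
  · intro c a w
    simp only [Submodule.coe_smul, map_smul, smul_eq_mul]
  · intro a w
    have h1 := D2_tendsto hf hu₀ hu (tendsto_const_nhds (x := a)) (tendsto_const_nhds (x := w))
    have h2 := (ht.mul h1).const_add (Q (a : 𝔸) w)
    simpa using h2

/-- the limit case of `solveQ` -/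
theorem solveQ0 (hN : NData g h m Q P) (hφ : PhiN h m P φ) {ι : Type*} {l : Filter ι}
    {x : ι → m} {x₀ : m} (hx : ∀ w : m, Tendsto (fun n => Q (x n : 𝔸) w) l (𝓝 (Q (x₀ : 𝔸) w))) :
    Tendsto x l (𝓝 x₀) := by
  refine Lim5.solve' (B := fun _ (a w : m) => Q (a : 𝔸) w)
    (B₀ := fun (a w : m) => Q (a : 𝔸) w) ?_ ?_ ?_ ?_ ?_ ?_ ?_ ?_ ?_ (fun w hw => Qm_pos hN hw) hx
  · intro n a a' w
    simp only [Submodule.coe_add, map_add, LinearMap.add_apply]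
  · intro n c a w
    simp only [Submodule.coe_smul, map_smul, LinearMap.smul_apply, smul_eq_mul]
  · intro n a w w'
    simp only [Submodule.coe_add, map_add]
  · intro n c a w
    simp only [Submodule.coe_smul, map_smul, smul_eq_mul]
  · intro a a' w
    simp only [Submodule.coe_add, map_add, LinearMap.add_apply]
  · intro c a w
    simp only [Submodule.coe_smul, map_smul, LinearMap.smul_apply, smul_eq_mul]
  · intro a w w'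
    simp only [Submodule.coe_add, map_add]
  · intro c a w
    simp only [Submodule.coe_smul, map_smul, smul_eq_mul]
  · intro a w
    exact tendsto_const_nhds

theorem jets_tendsto (hN : NData g h m Q P) (hφ : PhiN h m P φ) {t : ℕ → ℝ}
    (ht : Tendsto t atTop (𝓝 0)) {u b : ℕ → m} {u₀ b₀ : m} (hu₀ : u₀ ≠ 0) (hun : ∀ n, u n ≠ 0)
    (hu : Tendsto u atTop (𝓝 u₀)) (hb : Tendsto b atTop (𝓝 b₀))
    {x s s' ε εb ε' κ : ℕ → m}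
    (J : ∀ n, Jet Q P φ (t n) (u n) (b n) (x n) (s n) (s' n) (ε n) (εb n) (ε' n) (κ n)) :
    ∃ x₀ s₀ s₀' κ₀ : m, (∀ w : m, Q (x₀ : 𝔸) w = D1 φ u₀ w) ∧
      (∀ w : m, Q (s₀ : 𝔸) w = D2 φ u₀ b₀ w) ∧
      (∀ w : m, Q (s₀' : 𝔸) w = D2 φ u₀ (P ⁅(u₀ : 𝔸), (x₀ : 𝔸)⁆) w) ∧
      (∀ w : m, Q (κ₀ : 𝔸) w = D2 φ u₀ (P (⁅(b₀ : 𝔸), (x₀ : 𝔸)⁆ + ⁅(u₀ : 𝔸), (s₀ : 𝔸)⁆)) w
        + D3 φ u₀ b₀ (P ⁅(u₀ : 𝔸), (x₀ : 𝔸)⁆) w) ∧
      Tendsto x atTop (𝓝 x₀) ∧ Tendsto s atTop (𝓝 s₀) ∧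
      Tendsto ε atTop (𝓝 (P ⁅(u₀ : 𝔸), (x₀ : 𝔸)⁆)) ∧
      Tendsto εb atTop (𝓝 (P (⁅(b₀ : 𝔸), (x₀ : 𝔸)⁆ + ⁅(u₀ : 𝔸), (s₀ : 𝔸)⁆))) ∧
      Tendsto ε' atTop (𝓝 (P (⁅(P ⁅(u₀ : 𝔸), (x₀ : 𝔸)⁆ : 𝔸), (x₀ : 𝔸)⁆
        + ⁅(u₀ : 𝔸), (s₀' : 𝔸)⁆))) ∧
      Tendsto κ atTop (𝓝 κ₀) := by
  have hf := hφ.smooth
  have cst : ∀ w : m, Tendsto (fun _ : ℕ => w) atTop (𝓝 w) := fun w => tendsto_const_nhds
  have cstA : ∀ w : 𝔸, Tendsto (fun _ : ℕ => w) atTop (𝓝 w) := fun w => tendsto_const_nhds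
  obtain ⟨x₀, hx₀⟩ := m_rep hN (fderiv ℝ φ u₀)
  obtain ⟨s₀, hs₀⟩ := m_rep hN (fderiv ℝ (fun z => D1 φ z b₀) u₀)
  obtain ⟨s₀', hs₀'⟩ := m_rep hN (fderiv ℝ (fun z => D1 φ z (P ⁅(u₀ : 𝔸), (x₀ : 𝔸)⁆)) u₀)
  obtain ⟨κ₀, hκ₀⟩ := m_rep hN
    (fderiv ℝ (fun z => D1 φ z (P (⁅(b₀ : 𝔸), (x₀ : 𝔸)⁆ + ⁅(u₀ : 𝔸), (s₀ : 𝔸)⁆))) u₀
      + fderiv ℝ (fun z => D2 φ z b₀ (P ⁅(u₀ : 𝔸), (x₀ : 𝔸)⁆)) u₀)
  have k1 : ∀ w : m, Q (x₀ : 𝔸) w = D1 φ u₀ w := fun w => hx₀ w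
  have k2 : ∀ w : m, Q (s₀ : 𝔸) w = D2 φ u₀ b₀ w := fun w => hs₀ w
  have k3 : ∀ w : m, Q (s₀' : 𝔸) w = D2 φ u₀ (P ⁅(u₀ : 𝔸), (x₀ : 𝔸)⁆) w := fun w => hs₀' w
  have k4 : ∀ w : m, Q (κ₀ : 𝔸) w = D2 φ u₀ (P (⁅(b₀ : 𝔸), (x₀ : 𝔸)⁆
      + ⁅(u₀ : 𝔸), (s₀ : 𝔸)⁆)) w + D3 φ u₀ b₀ (P ⁅(u₀ : 𝔸), (x₀ : 𝔸)⁆) w := fun w => by
    rw [hκ₀ w]; rfl
  have l1 : Tendsto x atTop (𝓝 x₀) := by
    refine solveQ0 hN hφ fun w => ?_
    simp only [(J _).hx, k1]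
    exact D1_tendsto hf hu₀ hu (cst w)
  have l2 : Tendsto s atTop (𝓝 s₀) := by
    refine solveQ0 hN hφ fun w => ?_
    simp only [(J _).hs, k2]
    exact D2_tendsto hf hu₀ hu hb (cst w)
  have l3 : Tendsto ε atTop (𝓝 (P ⁅(u₀ : 𝔸), (x₀ : 𝔸)⁆)) := by
    refine solveQ hN hφ ht hu₀ hun hu fun w => ?_
    simp only [(J _).hε, Q_P' hN w (lm hN u₀ x₀)]
    exact Lim5.Q_tendsto Q (Lim5.br_tendsto (val_tendsto hu) (val_tendsto l1)) (cstA w)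
  have l4 : Tendsto εb atTop (𝓝 (P (⁅(b₀ : 𝔸), (x₀ : 𝔸)⁆ + ⁅(u₀ : 𝔸), (s₀ : 𝔸)⁆))) := by
    refine solveQ hN hφ ht hu₀ hun hu fun w => ?_
    simp only [(J _).hεb, Q_P' hN w (g.add_mem (lm hN b₀ x₀) (lm hN u₀ s₀))]
    have h1 := Lim5.Q_tendsto Q ((Lim5.br_tendsto (val_tendsto hb) (val_tendsto l1)).add
      (Lim5.br_tendsto (val_tendsto hu) (val_tendsto l2))) (cstA w)
    have h2 := ht.mul (D3_tendsto hf hu₀ hu hb l3 (cst w))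
    simpa using h1.sub h2
  have l5 : Tendsto s' atTop (𝓝 s₀') := by
    refine solveQ0 hN hφ fun w => ?_
    simp only [(J _).hs', k3]
    exact D2_tendsto hf hu₀ hu l3 (cst w)
  have l6 : Tendsto ε' atTop (𝓝 (P (⁅(P ⁅(u₀ : 𝔸), (x₀ : 𝔸)⁆ : 𝔸), (x₀ : 𝔸)⁆
        + ⁅(u₀ : 𝔸), (s₀' : 𝔸)⁆))) := by
    refine solveQ hN hφ ht hu₀ hun hu fun w => ?_
    simp only [(J _).hε', Q_P' hN w (g.add_mem (lm hN (P ⁅(u₀ : 𝔸), (x₀ : 𝔸)⁆) x₀)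
      (lm hN u₀ s₀'))]
    have h1 := Lim5.Q_tendsto Q ((Lim5.br_tendsto (val_tendsto l3) (val_tendsto l1)).add
      (Lim5.br_tendsto (val_tendsto hu) (val_tendsto l5))) (cstA w)
    have h2 := ht.mul (D3_tendsto hf hu₀ hu l3 l3 (cst w))
    simpa using h1.sub h2
  have l7 : Tendsto κ atTop (𝓝 κ₀) := by
    refine solveQ0 hN hφ fun w => ?_
    simp only [(J _).hκ, k4]
    exact (D2_tendsto hf hu₀ hu l4 (cst w)).add (D3_tendsto hf hu₀ hu hb l3 (cst w))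
  exact ⟨x₀, s₀, s₀', κ₀, k1, k2, k3, k4, l1, l2, l3, l4, l6, l7⟩

end Pool.Agent.helper79.FP
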