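import Pool.Agent.helper79.FP.Scale

/-!
# MP_f09395_gt: the perturbation theorem

If the third order form is positive on all flat flags with vanishing `𝔥`-term, then all curvatures
of `½ Q(u, u) + t φ(u)` are positive for small `t > 0`.
-/

set_option linter.unusedSectionVars false

noncomputable section

namespace Pool.Agent.helper79.FP

open scoped ContDiff
open Pool.Agent.Helper93.Fin
open Filter Topology

variable {𝔸 : Type*} [NormedRing 𝔸] [NormedAlgebra ℝ 𝔸] [FiniteDimensional ℝ 𝔸]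
variable {g h m : Submodule ℝ 𝔸} {Q : 𝔸 →ₗ[ℝ] 𝔸 →ₗ[ℝ] ℝ} {P : 𝔸 →L[ℝ] m} {φ : m → ℝ}

/-- normalisation of a flag on which the curvature form is not positive -/
theorem normaliseQ (hN : NData g h m Q P) {L : m → ℝ} (hL : MinkData h m P L)
    (hhom : ∀ (c : ℝ) (u : m), L (c • u) = c ^ 2 * L u) {u b : m}
    (hub : LinearIndependent ℝ ![u, b]) (hR : Rform P L u b ≤ 0) :
    ∃ u' b' : m, Q (u' : 𝔸) u' = 1 ∧ Q (b' : 𝔸) b' = 1 ∧ Q (u' : 𝔸) b' = 0 ∧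
      Rform P L u' b' ≤ 0 := by
  have hRD := hN.red
  have hu : u ≠ 0 := hub.ne_zero 0
  have hQu : 0 < Q (u : 𝔸) u := Qm_pos hN hu
  set c := -(Q (u : 𝔸) b / Q (u : 𝔸) u) with hc
  have hb1 : b + c • u ≠ 0 := by
    intro h0
    have h1 : c • u + (1 : ℝ) • b = 0 := by rw [one_smul, add_comm]; exact h0
    exact one_ne_zero (LinearIndependent.pair_iff.1 hub _ _ h1).2
  have hQ1 : Q (u : 𝔸) ((b + c • u : m) : 𝔸) = 0 := by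
    push_cast
    rw [map_add, map_smul, smul_eq_mul, hc]
    field_simp
    ring
  have hQb : 0 < Q ((b + c • u : m) : 𝔸) ((b + c • u : m) : 𝔸) := Qm_pos hN hb1
  obtain ⟨b1, hb1d⟩ : ∃ b1 : m, b1 = b + c • u := ⟨_, rfl⟩
  rw [← hb1d] at hQ1 hQb hb1
  have hα : (Real.sqrt (Q (u : 𝔸) u))⁻¹ ≠ 0 := inv_ne_zero (Real.sqrt_ne_zero'.2 hQu)
  have hβ : (Real.sqrt (Q (b1 : 𝔸) b1))⁻¹ ≠ 0 := inv_ne_zero (Real.sqrt_ne_zero'.2 hQb)
  refine ⟨(Real.sqrt (Q (u : 𝔸) u))⁻¹ • u, (Real.sqrt (Q (b1 : 𝔸) b1))⁻¹ • b1, ?_, ?_, ?_, ?_⟩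
  · rw [Submodule.coe_smul, map_smul, map_smul, LinearMap.smul_apply, smul_eq_mul, smul_eq_mul,
      ← mul_assoc, ← sq, inv_pow, Real.sq_sqrt hQu.le, inv_mul_cancel₀ hQu.ne']
  · rw [Submodule.coe_smul, map_smul, map_smul, LinearMap.smul_apply, smul_eq_mul, smul_eq_mul,
      ← mul_assoc, ← sq, inv_pow, Real.sq_sqrt hQb.le, inv_mul_cancel₀ hQb.ne']
  · rw [Submodule.coe_smul, Submodule.coe_smul, map_smul, map_smul, LinearMap.smul_apply, hQ1,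
      smul_zero, smul_zero]
  · have hu' : (Real.sqrt (Q (u : 𝔸) u))⁻¹ • u ≠ 0 := smul_ne_zero hα hu
    rw [Rform_smul_right hRD hL hu', Rform_smul_left hRD hL hhom hu _ hα, hb1d,
      Rform_add_smul hRD hL hhom hu]
    exact mul_nonpos_of_nonneg_of_nonpos (sq_nonneg _)
      (mul_nonpos_of_nonneg_of_nonpos (sq_nonneg _) hR)

/-- the sum of squares is nonnegative; consequences of its vanishing -/
theorem Sq_parts (hN : NData g h m Q P) {ρ : ℝ} {u b x s : m} {w : 𝔸} (hw : w ∈ g) :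
    0 ≤ Sq Q P ρ u b x s w ∧ (Sq Q P ρ u b x s w ≤ 0 →
      P w = ρ • (P ⁅(b : 𝔸), (x : 𝔸)⁆ - P ⁅(u : 𝔸), (s : 𝔸)⁆) ∧
      w - (P w : 𝔸) = (ρ / 2) • (⁅(b : 𝔸), (x : 𝔸)⁆ - (P ⁅(b : 𝔸), (x : 𝔸)⁆ : 𝔸)) ∧
      (ρ ≠ 0 → ⁅(b : 𝔸), (x : 𝔸)⁆ = (P ⁅(b : 𝔸), (x : 𝔸)⁆ : 𝔸))) := by
  have m1 : (w - (P w : 𝔸)) - (ρ / 2) • (⁅(b : 𝔸), (x : 𝔸)⁆ - (P ⁅(b : 𝔸), (x : 𝔸)⁆ : 𝔸)) ∈ g :=
    g.sub_mem (hN.red.h_le (hN.red.res w hw)) (g.smul_mem _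
      (hN.red.h_le (hN.red.res _ (lm hN b x))))
  have m2 : ⁅(b : 𝔸), (x : 𝔸)⁆ - (P ⁅(b : 𝔸), (x : 𝔸)⁆ : 𝔸) ∈ g :=
    hN.red.h_le (hN.red.res _ (lm hN b x))
  have m3 := mg hN (P w - ρ • (P ⁅(b : 𝔸), (x : 𝔸)⁆ - P ⁅(u : 𝔸), (s : 𝔸)⁆))
  have n1 := Q_nonneg hN m1
  have n2 := Q_nonneg hN m2
  have n3 := Q_nonneg hN m3
  have n4 : 0 ≤ ρ ^ 2 * Q (⁅(b : 𝔸), (x : 𝔸)⁆ - (P ⁅(b : 𝔸), (x : 𝔸)⁆ : 𝔸))
      (⁅(b : 𝔸), (x : 𝔸)⁆ - (P ⁅(b : 𝔸), (x : 𝔸)⁆ : 𝔸)) := mul_nonneg (sq_nonneg _) n2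
  refine ⟨by unfold Sq; linarith, fun h0 => ?_⟩
  unfold Sq at h0
  refine ⟨?_, ?_, fun hρ => ?_⟩
  · have := Q_zero hN m3 (by linarith)
    have h2 : P w - ρ • (P ⁅(b : 𝔸), (x : 𝔸)⁆ - P ⁅(u : 𝔸), (s : 𝔸)⁆) = 0 := Subtype.ext this
    exact sub_eq_zero.1 h2
  · exact sub_eq_zero.1 (Q_zero hN m1 (by linarith))
  · have h3 : ρ ^ 2 * Q (⁅(b : 𝔸), (x : 𝔸)⁆ - (P ⁅(b : 𝔸), (x : 𝔸)⁆ : 𝔸))
      (⁅(b : 𝔸), (x : 𝔸)⁆ - (P ⁅(b : 𝔸), (x : 𝔸)⁆ : 𝔸)) ≤ 0 := by linarith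
    have h4 : 0 < ρ ^ 2 := by positivity
    exact sub_eq_zero.1 (Q_zero hN m2 (nonpos_of_mul_nonpos_right h3 h4))

/-- **Perturbation theorem.** -/
theorem pert (hN : NData g h m Q P) (hφ : PhiN h m P φ)
    (hT : ∀ u b x s y : m, Q (u : 𝔸) u = 1 → Q (b : 𝔸) b = 1 → Q (u : 𝔸) b = 0 →
      ⁅(u : 𝔸), (b : 𝔸)⁆ = 0 → (∀ w : m, Q (x : 𝔸) w = D1 φ u w) →
      (∀ w : m, Q (s : 𝔸) w = D2 φ u b w) → (∀ w : m, Q (y : 𝔸) w = D3 φ u b b w) →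
      (∀ Y ∈ h, Q Y ⁅(b : 𝔸), (x : 𝔸)⁆ = 0) → 0 < T3N Q P φ u b x s y) :
    ∃ t₁ > 0, ∀ t : ℝ, 0 < t → t < t₁ → MinkData h m P (LN Q t φ) ∧
      (∀ u : m, u ≠ 0 → 0 < LN Q t φ u) ∧
      ∀ u b : m, LinearIndependent ℝ ![u, b] → 0 < Rform P (LN Q t φ) u b := by
  obtain ⟨t₀, ht₀, hM⟩ := LN_mink hN hφ
  by_contra hcon
  have hbad : ∀ N : ℕ, ∃ t : ℝ, 0 < t ∧ t < t₀ / ((N : ℝ) + 2) ∧ ∃ u b : m, Q (u : 𝔸) u = 1 ∧
      Q (b : 𝔸) b = 1 ∧ Q (u : 𝔸) b = 0 ∧ Rform P (LN Q t φ) u b ≤ 0 := by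
    intro N
    by_contra hno
    refine hcon ⟨t₀ / ((N : ℝ) + 2), by positivity, fun t ht0 ht1 => ?_⟩
    have ht2 : t < t₀ := by
      refine ht1.trans ?_
      have h1 : (0 : ℝ) < (N : ℝ) + 2 := by positivity
      rw [div_lt_iff₀ h1]
      have h2 : (0 : ℝ) ≤ N := Nat.cast_nonneg N
      nlinarith
    obtain ⟨hL, hLpos⟩ := hM t (by rw [abs_of_pos ht0]; exact ht2)
    refine ⟨hL, hLpos, fun u b hub => ?_⟩
    by_contra hle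
    obtain ⟨u', b', h1, h2, h3, h4⟩ := normaliseQ hN hL (LN_hom hφ.hom t) hub (not_lt.1 hle)
    exact hno ⟨t, ht0, ht1, u', b', h1, h2, h3, h4⟩
  choose t ht0 ht1 u b hu1 hb1 hub hR using hbad
  have htlim : Tendsto t atTop (𝓝 0) := by
    have h1 : Tendsto (fun N : ℕ => t₀ / ((N : ℝ) + 2)) atTop (𝓝 0) := by
      have h1 : Tendsto (fun N : ℕ => (N : ℝ) + 2) atTop atTop :=
        tendsto_atTop_add_const_right _ _ tendsto_natCast_atTop_atTop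
      exact h1.const_div_atTop t₀
    exact squeeze_zero (fun N => (ht0 N).le) (fun N => (ht1 N).le) h1
  have htt : ∀ N, t N < t₀ := fun N => by
    refine (ht1 N).trans ?_
    have h1 : (0 : ℝ) < (N : ℝ) + 2 := by positivity
    rw [div_lt_iff₀ h1]
    have h2 : (0 : ℝ) ≤ N := Nat.cast_nonneg N
    nlinarith
  have hune : ∀ N, u N ≠ 0 := fun N h0 => by
    have := hu1 N
    rw [h0] at this
    simp at this
  -- the jets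
  have hj : ∀ N, ∃ x s s' ε εb ε' κ : m, Jet Q P φ (t N) (u N) (b N) x s s' ε εb ε' κ :=
    fun N => exists_jet hN hφ (ht0 N).ne' (hM (t N) (by
      rw [abs_of_pos (ht0 N)]; exact htt N)).1 (hune N) (b N)
  choose x s s' ε εb ε' κ J using hj
  -- the scale
  obtain ⟨ρ, hρd⟩ : ∃ ρ : ℕ → ℝ, ρ = fun N => (1 + ‖(t N)⁻¹ • ⁅(u N : 𝔸), (b N : 𝔸)⁆‖)⁻¹ :=
    ⟨_, rfl⟩
  obtain ⟨w, hwd⟩ : ∃ w : ℕ → 𝔸, w = fun N => ρ N • (t N)⁻¹ • ⁅(u N : 𝔸), (b N : 𝔸)⁆ := ⟨_, rfl⟩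
  have hρpos : ∀ N, 0 < ρ N := fun N => by rw [hρd]; positivity
  have hρw : ∀ N, ρ N + ‖w N‖ = 1 := by
    intro N
    have h1 : ‖w N‖ = ρ N * ‖(t N)⁻¹ • ⁅(u N : 𝔸), (b N : 𝔸)⁆‖ := by
      rw [hwd]; simp only; rw [norm_smul, Real.norm_of_nonneg (hρpos N).le]
    rw [h1]
    have h2 : ρ N * (1 + ‖(t N)⁻¹ • ⁅(u N : 𝔸), (b N : 𝔸)⁆‖) = 1 := by
      rw [hρd]; simp only
      exact inv_mul_cancel₀ (by positivity)
    linarith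
  have hzw : ∀ N, ⁅(u N : 𝔸), (b N : 𝔸)⁆ = (t N * (ρ N)⁻¹) • w N := by
    intro N
    rw [hwd]; simp only
    have h1 := (hρpos N).ne'
    have h2 := (ht0 N).ne'
    have h3 : t N * (ρ N)⁻¹ * ρ N * (t N)⁻¹ = 1 := by field_simp
    rw [smul_smul, smul_smul, h3, one_smul]
  have hwg : ∀ N, w N ∈ g := fun N => by
    rw [hwd]; exact g.smul_mem _ (g.smul_mem _ (lm hN _ _))
  -- extraction
  obtain ⟨c, hc, hcoer⟩ := exists_coercive (BN m Q) (BN_pos hN)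
  have hbd : ∀ v : m, Q (v : 𝔸) v = 1 → ‖v‖ ≤ 1 / c + 1 := by
    intro v hv
    have h1 := hcoer v
    rw [BN_apply, hv] at h1
    have h2 : ‖v‖ ^ 2 ≤ 1 / c := by rw [le_div_iff₀ hc]; linarith
    nlinarith [sq_nonneg (‖v‖ - 1), norm_nonneg v]
  have hprop : ProperSpace 𝔸 := FiniteDimensional.proper ℝ 𝔸
  have hpropm : ProperSpace m := FiniteDimensional.proper ℝ m
  have hcomp : IsCompact (Metric.closedBall (0 : m) (1 / c + 1) ×ˢ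
      (Metric.closedBall (0 : m) (1 / c + 1) ×ˢ (Metric.closedBall (0 : ℝ) 1 ×ˢ
      Metric.closedBall (0 : 𝔸) 1))) :=
    (isCompact_closedBall _ _).prod ((isCompact_closedBall _ _).prod
      ((isCompact_closedBall _ _).prod (isCompact_closedBall _ _)))
  obtain ⟨⟨u₀, b₀, ρ₀, w₀⟩, -, ψ, hψ, hlim⟩ := hcomp.tendsto_subseq
    (x := fun N => (u N, b N, ρ N, w N)) fun N => by
      have h1 := hρw N
      have h2 := norm_nonneg (w N)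
      have h3 := hρpos N
      refine ⟨?_, ?_, ?_, ?_⟩
      · simpa only [mem_closedBall_zero_iff] using hbd _ (hu1 N)
      · simpa only [mem_closedBall_zero_iff] using hbd _ (hb1 N)
      · simp only [mem_closedBall_zero_iff, Real.norm_of_nonneg h3.le]; linarith
      · simp only [mem_closedBall_zero_iff]; linarith
  have lu : Tendsto (fun N => u (ψ N)) atTop (𝓝 u₀) :=
    (continuous_fst.tendsto (u₀, b₀, ρ₀, w₀)).comp hlim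
  have lb : Tendsto (fun N => b (ψ N)) atTop (𝓝 b₀) :=
    ((continuous_fst.comp continuous_snd).tendsto (u₀, b₀, ρ₀, w₀)).comp hlim
  have lρ : Tendsto (fun N => ρ (ψ N)) atTop (𝓝 ρ₀) :=
    ((continuous_fst.comp (continuous_snd.comp continuous_snd)).tendsto (u₀, b₀, ρ₀, w₀)).comp hlim
  have lw : Tendsto (fun N => w (ψ N)) atTop (𝓝 w₀) :=
    ((continuous_snd.comp (continuous_snd.comp continuous_snd)).tendsto (u₀, b₀, ρ₀, w₀)).comp hlim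
  have lt : Tendsto (fun N => t (ψ N)) atTop (𝓝 0) := htlim.comp hψ.tendsto_atTop
  have cst1 : ∀ r : ℝ, Tendsto (fun _ : ℕ => r) atTop (𝓝 r) := fun r => tendsto_const_nhds
  have hQu : Q (u₀ : 𝔸) u₀ = 1 := by
    have h1 := Lim5.Q_tendsto Q (val_tendsto lu) (val_tendsto lu)
    refine tendsto_nhds_unique h1 ?_
    simp only [hu1]; exact cst1 1
  have hQb : Q (b₀ : 𝔸) b₀ = 1 := by
    have h1 := Lim5.Q_tendsto Q (val_tendsto lb) (val_tendsto lb)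
    refine tendsto_nhds_unique h1 ?_
    simp only [hb1]; exact cst1 1
  have hQub : Q (u₀ : 𝔸) b₀ = 0 := by
    have h1 := Lim5.Q_tendsto Q (val_tendsto lu) (val_tendsto lb)
    refine tendsto_nhds_unique h1 ?_
    simp only [hub]; exact cst1 0
  have hu₀ : u₀ ≠ 0 := fun h0 => by rw [h0] at hQu; simp at hQu
  have hsum : ρ₀ + ‖w₀‖ = 1 := by
    refine tendsto_nhds_unique (lρ.add lw.norm) ?_
    simp only [hρw]; exact cst1 1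
  obtain ⟨x₀, s₀, s₀', κ₀, k1, k2, k3, k4, lx, ls, lε, lεb, lε', lκ⟩ :=
    jets_tendsto hN hφ lt hu₀ (fun N => hune (ψ N)) lu lb (fun N => J (ψ N))
  have lSh := Sh_tendsto (Q := Q) hφ lt lρ hu₀ lu lb lx ls lε lεb lε' lκ lw
  have lSq := Sq_tendsto (Q := Q) (P := P) lρ lu lb lx ls lw
  -- the inequality
  have hineq : ∀ N, Sq Q P (ρ N) (u N) (b N) (x N) (s N) (w N) + t N *
      Sh Q P φ (t N) (ρ N) (u N) (b N) (x N) (s N) (ε N) (εb N) (ε' N) (κ N) (w N) ≤ 0 := by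
    intro N
    have h1 := Rform_scaled hN hφ (hρpos N).ne' (hune N) (J N) (hzw N)
    have h2 : (ρ N) ^ 2 * Rform P (LN Q (t N) φ) (u N) (b N) ≤ 0 :=
      mul_nonpos_of_nonneg_of_nonpos (sq_nonneg _) (hR N)
    rw [h1] at h2
    have h3 : 0 < (t N) ^ 2 := by have := ht0 N; positivity
    exact nonpos_of_mul_nonpos_right h2 h3
  have hShn : ∀ N, Sh Q P φ (t N) (ρ N) (u N) (b N) (x N) (s N) (ε N) (εb N) (ε' N) (κ N) (w N)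
      ≤ 0 := by
    intro N
    have h1 := (Sq_parts hN (ρ := ρ N) (u := u N) (b := b N) (x := x N) (s := s N) (hwg N)).1
    have h2 := hineq N
    exact nonpos_of_mul_nonpos_right (by linarith) (ht0 N)
  have hSq0 : Sq Q P ρ₀ u₀ b₀ x₀ s₀ w₀ ≤ 0 := by
    have h1 := lSq.add (lt.mul lSh)
    rw [zero_mul, add_zero] at h1
    exact le_of_tendsto' h1 fun N => hineq (ψ N)
  have hSh0 := le_of_tendsto' lSh fun N => hShn (ψ N)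
  have hgc : IsClosed (g : Set 𝔸) := g.closed_of_finiteDimensional
  have hw₀g : w₀ ∈ g := hgc.mem_of_tendsto lw (Eventually.of_forall fun N => hwg (ψ N))
  obtain ⟨c1, c2, c3⟩ := (Sq_parts hN hw₀g).2 hSq0
  have hρ₀ : ρ₀ ≠ 0 := by
    intro h0
    rw [h0] at c1 c2 hsum
    rw [zero_smul] at c1
    rw [zero_div, zero_smul, c1] at c2
    have h1 : w₀ = 0 := by simpa using c2
    rw [h1, norm_zero, add_zero] at hsum
    exact zero_ne_one hsum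
  have c3' := c3 hρ₀
  rw [← c3', sub_self, smul_zero] at c2
  have hw₀ : w₀ = ρ₀ • ((P ⁅(b₀ : 𝔸), (x₀ : 𝔸)⁆ - P ⁅(u₀ : 𝔸), (s₀ : 𝔸)⁆ : m) : 𝔸) := by
    rw [← Submodule.coe_smul, ← c1]
    exact sub_eq_zero.1 c2
  have hflat : ⁅(u₀ : 𝔸), (b₀ : 𝔸)⁆ = 0 := by
    have h1 := Lim5.br_tendsto (val_tendsto lu) (val_tendsto lb)
    have h2 := (lt.mul (lρ.inv₀ hρ₀)).smul lw
    rw [zero_mul, zero_smul] at h2
    refine tendsto_nhds_unique h1 ?_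
    have h3 : (fun N => ⁅(u (ψ N) : 𝔸), (b (ψ N) : 𝔸)⁆) = fun N => (t (ψ N) * (ρ (ψ N))⁻¹) •
      w (ψ N) := funext fun N => hzw (ψ N)
    rw [h3]; exact h2
  have hα : ∀ Y ∈ h, Q Y ⁅(b₀ : 𝔸), (x₀ : 𝔸)⁆ = 0 := by
    intro Y hY
    rw [c3']
    exact hN.Qhm Y hY _ (P ⁅(b₀ : 𝔸), (x₀ : 𝔸)⁆).2
  obtain ⟨y, hy⟩ := m_rep hN (fderiv ℝ (fun z => D2 φ z b₀ b₀) u₀)
  have hpos := hT u₀ b₀ x₀ s₀ y hQu hQb hQub hflat k1 k2 (fun v => hy v) hα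
  rw [hw₀, Sh_eq hN hφ hu₀ k3 k4 (fun v => hy v)] at hSh0
  have : 0 < ρ₀ ^ 2 * T3N Q P φ u₀ b₀ x₀ s₀ y := by positivity
  linarith

end Pool.Agent.helper79.FP
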