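import Pool.Agent.helper79.FP.JetEx

/-!
# MP_f09395_gt: the scaled curvature form
-/

set_option linter.unusedSectionVars false

noncomputable section

namespace Pool.Agent.helper79.FP

open scoped ContDiff
open Pool.Agent.Helper93.Fin
open Filter Topology

variable {𝔸 : Type*} [NormedRing 𝔸] [NormedAlgebra ℝ 𝔸]
variable {g h m : Submodule ℝ 𝔸} {Q : 𝔸 →ₗ[ℝ] 𝔸 →ₗ[ℝ] ℝ} {P : 𝔸 →L[ℝ] m} {φ : m → ℝ}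

/-- the homogenised remainder -/
def Sh {m : Submodule ℝ 𝔸} (Q : 𝔸 →ₗ[ℝ] 𝔸 →ₗ[ℝ] ℝ) (P : 𝔸 →L[ℝ] m) (φ : m → ℝ) (t ρ : ℝ)
    (u b x s ε εb ε' κ : m) (w : 𝔸) : ℝ :=
  - (1 / 2) * ρ * Q (P w + ρ • P (⁅(b : 𝔸), (x : 𝔸)⁆ + ⁅(u : 𝔸), (s : 𝔸)⁆) : m) κ
    + (1 / 4) * t * ρ ^ 2 * Q (κ : 𝔸) κ
    + (1 / 4) * D2 φ u (P w + ρ • εb) (P w + ρ • εb)
    - D2 φ u (P w) (P w)
    - ρ * Q w ⁅(x : 𝔸), (s : 𝔸)⁆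
    - ρ ^ 2 * D2 φ u ε (P ⁅(s : 𝔸), (b : 𝔸)⁆)
    - ρ * D3 φ u ε b (P w)
    - (1 / 2) * ρ ^ 2 * (D4 φ u ε ε b b + D3 φ u ε' b b)

/-- the sum of squares -/
def Sq {m : Submodule ℝ 𝔸} (Q : 𝔸 →ₗ[ℝ] 𝔸 →ₗ[ℝ] ℝ) (P : 𝔸 →L[ℝ] m) (ρ : ℝ)
    (u b x s : m) (w : 𝔸) : ℝ :=
  (1 / 4) * Q ((P w - ρ • (P ⁅(b : 𝔸), (x : 𝔸)⁆ - P ⁅(u : 𝔸), (s : 𝔸)⁆) : m) : 𝔸)
      ((P w - ρ • (P ⁅(b : 𝔸), (x : 𝔸)⁆ - P ⁅(u : 𝔸), (s : 𝔸)⁆) : m) : 𝔸)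
    + Q ((w - (P w : 𝔸)) - (ρ / 2) • (⁅(b : 𝔸), (x : 𝔸)⁆ - (P ⁅(b : 𝔸), (x : 𝔸)⁆ : 𝔸)))
        ((w - (P w : 𝔸)) - (ρ / 2) • (⁅(b : 𝔸), (x : 𝔸)⁆ - (P ⁅(b : 𝔸), (x : 𝔸)⁆ : 𝔸)))
    + (3 / 4) * ρ ^ 2 * Q (⁅(b : 𝔸), (x : 𝔸)⁆ - (P ⁅(b : 𝔸), (x : 𝔸)⁆ : 𝔸))
        (⁅(b : 𝔸), (x : 𝔸)⁆ - (P ⁅(b : 𝔸), (x : 𝔸)⁆ : 𝔸))

variable [FiniteDimensional ℝ 𝔸]

theorem Sform_scale (hφ : PhiN h m P φ) {t ρ : ℝ} (hρ : ρ ≠ 0)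
    {u b x s ε εb ε' κ : m} (hu : u ≠ 0) {z w : 𝔸} (hz : z = (t * ρ⁻¹) • w) :
    ρ ^ 2 * Sform Q P φ t u b x s ε εb ε' κ z = t ^ 3 * Sh Q P φ t ρ u b x s ε εb ε' κ w := by
  have hf := hφ.smooth
  have e0 : (P z : m) = (t * ρ⁻¹) • P w := by rw [hz, map_smul]
  obtain ⟨E, hE⟩ : ∃ E : m, E = P (⁅(b : 𝔸), (x : 𝔸)⁆ + ⁅(u : 𝔸), (s : 𝔸)⁆) := ⟨_, rfl⟩
  have e1 : P z + t • E = (t * ρ⁻¹) • (P w + ρ • E) := by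
    rw [e0, smul_add, smul_smul]
    congr 2
    field_simp
  have e2 : P z + t • εb = (t * ρ⁻¹) • (P w + ρ • εb) := by
    rw [e0, smul_add, smul_smul]
    congr 2
    field_simp
  unfold Sform Sh
  rw [← hE, e1, e2, e0, hz]
  simp only [D2_smul hf hu, D2_smul_right hf hu, D3_smul_right hf hu, Submodule.coe_smul,
    map_smul, LinearMap.smul_apply, smul_eq_mul]
  field_simp

theorem Sq_scale {t ρ : ℝ} (hρ : ρ ≠ 0) {u b x s : m} {z w : 𝔸} (hz : z = (t * ρ⁻¹) • w) :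
    ρ ^ 2 * ((1 / 4) * Q ((P z - t • (P ⁅(b : 𝔸), (x : 𝔸)⁆ - P ⁅(u : 𝔸), (s : 𝔸)⁆) : m) : 𝔸)
          ((P z - t • (P ⁅(b : 𝔸), (x : 𝔸)⁆ - P ⁅(u : 𝔸), (s : 𝔸)⁆) : m) : 𝔸)
      + Q ((z - (P z : 𝔸)) - (t / 2) • (⁅(b : 𝔸), (x : 𝔸)⁆ - (P ⁅(b : 𝔸), (x : 𝔸)⁆ : 𝔸)))
          ((z - (P z : 𝔸)) - (t / 2) • (⁅(b : 𝔸), (x : 𝔸)⁆ - (P ⁅(b : 𝔸), (x : 𝔸)⁆ : 𝔸)))
      + (3 / 4) * t ^ 2 * Q (⁅(b : 𝔸), (x : 𝔸)⁆ - (P ⁅(b : 𝔸), (x : 𝔸)⁆ : 𝔸))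
          (⁅(b : 𝔸), (x : 𝔸)⁆ - (P ⁅(b : 𝔸), (x : 𝔸)⁆ : 𝔸)))
      = t ^ 2 * Sq Q P ρ u b x s w := by
  have e0 : (P z : m) = (t * ρ⁻¹) • P w := by rw [hz, map_smul]
  obtain ⟨D, hD⟩ : ∃ D : m, D = P ⁅(b : 𝔸), (x : 𝔸)⁆ - P ⁅(u : 𝔸), (s : 𝔸)⁆ := ⟨_, rfl⟩
  obtain ⟨N, hN⟩ : ∃ N : 𝔸, N = ⁅(b : 𝔸), (x : 𝔸)⁆ - (P ⁅(b : 𝔸), (x : 𝔸)⁆ : 𝔸) := ⟨_, rfl⟩
  have e1 : P z - t • D = (t * ρ⁻¹) • (P w - ρ • D) := by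
    rw [e0, smul_sub, smul_smul]
    congr 2
    field_simp
  have e2 : (z - (P z : 𝔸)) - (t / 2) • N = (t * ρ⁻¹) • ((w - (P w : 𝔸)) - (ρ / 2) • N) := by
    rw [e0, Submodule.coe_smul, hz, smul_sub, smul_sub, smul_smul (t * ρ⁻¹) (ρ / 2)]
    congr 2
    field_simp
  unfold Sq
  rw [← hD, ← hN, e1, e2]
  simp only [Submodule.coe_smul, map_smul, LinearMap.smul_apply, smul_eq_mul]
  field_simp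

theorem Rform_scaled (hN : NData g h m Q P) (hφ : PhiN h m P φ) {t ρ : ℝ} (hρ : ρ ≠ 0)
    {u b x s s' ε εb ε' κ : m} (hu : u ≠ 0) (J : Jet Q P φ t u b x s s' ε εb ε' κ) {w : 𝔸}
    (hw : ⁅(u : 𝔸), (b : 𝔸)⁆ = (t * ρ⁻¹) • w) :
    ρ ^ 2 * Rform P (LN Q t φ) u b =
      t ^ 2 * (Sq Q P ρ u b x s w + t * Sh Q P φ t ρ u b x s ε εb ε' κ w) := by
  rw [Rform_exact hN hφ hu J]
  have h1 := Sq_scale (P := P) (Q := Q) (u := u) (b := b) (x := x) (s := s) hρ hw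
  have h2 := Sform_scale (P := P) (Q := Q) hφ hρ (b := b) (x := x) (s := s) (ε := ε) (εb := εb)
    (ε' := ε') (κ := κ) hu hw
  linear_combination h1 + h2

theorem Sh_tendsto (hφ : PhiN h m P φ) {t ρ : ℕ → ℝ} {ρ₀ : ℝ}
    (ht : Tendsto t atTop (𝓝 0)) (hρ : Tendsto ρ atTop (𝓝 ρ₀))
    {u b x s ε εb ε' κ : ℕ → m} {u₀ b₀ x₀ s₀ ε₀ εb₀ ε₀' κ₀ : m} (hu₀ : u₀ ≠ 0)
    (hu : Tendsto u atTop (𝓝 u₀)) (hb : Tendsto b atTop (𝓝 b₀)) (hx : Tendsto x atTop (𝓝 x₀))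
    (hs : Tendsto s atTop (𝓝 s₀)) (hε : Tendsto ε atTop (𝓝 ε₀)) (hεb : Tendsto εb atTop (𝓝 εb₀))
    (hε' : Tendsto ε' atTop (𝓝 ε₀')) (hκ : Tendsto κ atTop (𝓝 κ₀)) {w : ℕ → 𝔸} {w₀ : 𝔸}
    (hw : Tendsto w atTop (𝓝 w₀)) :
    Tendsto (fun n => Sh Q P φ (t n) (ρ n) (u n) (b n) (x n) (s n) (ε n) (εb n) (ε' n) (κ n) (w n))
      atTop (𝓝 (Sh Q P φ 0 ρ₀ u₀ b₀ x₀ s₀ ε₀ εb₀ ε₀' κ₀ w₀)) := by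
  have hf := hφ.smooth
  have p1 := P_tendsto (P := P) hw
  have p2 := P_tendsto (P := P) ((Lim5.br_tendsto (val_tendsto hb) (val_tendsto hx)).add
    (Lim5.br_tendsto (val_tendsto hu) (val_tendsto hs)))
  have p3 := P_tendsto (P := P) (Lim5.br_tendsto (val_tendsto hs) (val_tendsto hb))
  have q1 := p1.add (hρ.smul p2)
  have q2 := p1.add (hρ.smul hεb)
  unfold Sh
  refine ((((((((tendsto_const_nhds.mul hρ).mul (Lim5.Q_tendsto Q (val_tendsto q1)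
    (val_tendsto hκ))).add (((tendsto_const_nhds.mul ht).mul (hρ.pow 2)).mul
      (Lim5.Q_tendsto Q (val_tendsto hκ) (val_tendsto hκ)))).add
      (tendsto_const_nhds.mul (D2_tendsto hf hu₀ hu q2 q2))).sub
      (D2_tendsto hf hu₀ hu p1 p1)).sub
      (hρ.mul (Lim5.Q_tendsto Q hw (Lim5.br_tendsto (val_tendsto hx) (val_tendsto hs))))).sub
      ((hρ.pow 2).mul (D2_tendsto hf hu₀ hu hε p3))).sub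
      (hρ.mul (D3_tendsto hf hu₀ hu hε hb p1))).sub
      ((tendsto_const_nhds.mul (hρ.pow 2)).mul ((D4_tendsto hf hu₀ hu hε hε hb hb).add
        (D3_tendsto hf hu₀ hu hε' hb hb)))

theorem Sq_tendsto {ρ : ℕ → ℝ} {ρ₀ : ℝ} (hρ : Tendsto ρ atTop (𝓝 ρ₀))
    {u b x s : ℕ → m} {u₀ b₀ x₀ s₀ : m}
    (hu : Tendsto u atTop (𝓝 u₀)) (hb : Tendsto b atTop (𝓝 b₀)) (hx : Tendsto x atTop (𝓝 x₀))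
    (hs : Tendsto s atTop (𝓝 s₀)) {w : ℕ → 𝔸} {w₀ : 𝔸} (hw : Tendsto w atTop (𝓝 w₀)) :
    Tendsto (fun n => Sq Q P (ρ n) (u n) (b n) (x n) (s n) (w n)) atTop
      (𝓝 (Sq Q P ρ₀ u₀ b₀ x₀ s₀ w₀)) := by
  have p1 := P_tendsto (P := P) hw
  have p2 := Lim5.br_tendsto (val_tendsto hb) (val_tendsto hx)
  have p3 := Lim5.br_tendsto (val_tendsto hu) (val_tendsto hs)
  have p4 := P_tendsto (P := P) p2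
  have p5 := P_tendsto (P := P) p3
  have q1 := p1.sub (hρ.smul (p4.sub p5))
  have q2 := p2.sub (val_tendsto p4)
  have q3 := (hw.sub (val_tendsto p1)).sub ((hρ.div_const 2).smul q2)
  unfold Sq
  exact (((tendsto_const_nhds.mul (Lim5.Q_tendsto Q (val_tendsto q1) (val_tendsto q1))).add
    (Lim5.Q_tendsto Q q3 q3)).add ((tendsto_const_nhds.mul (hρ.pow 2)).mul
      (Lim5.Q_tendsto Q q2 q2)))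

/-- the limit of the remainder is the third order form -/
theorem Sh_eq (hN : NData g h m Q P) (hφ : PhiN h m P φ) {ρ : ℝ} {u b x s s' κ y : m}
    (hu : u ≠ 0)
    (hs' : ∀ w : m, Q (s' : 𝔸) w = D2 φ u (P ⁅(u : 𝔸), (x : 𝔸)⁆) w)
    (hκ : ∀ w : m, Q (κ : 𝔸) w = D2 φ u (P (⁅(b : 𝔸), (x : 𝔸)⁆ + ⁅(u : 𝔸), (s : 𝔸)⁆)) w
        + D3 φ u b (P ⁅(u : 𝔸), (x : 𝔸)⁆) w)
    (hy : ∀ w : m, Q (y : 𝔸) w = D3 φ u b b w) :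
    Sh Q P φ 0 ρ u b x s (P ⁅(u : 𝔸), (x : 𝔸)⁆)
        (P (⁅(b : 𝔸), (x : 𝔸)⁆ + ⁅(u : 𝔸), (s : 𝔸)⁆))
        (P (⁅(P ⁅(u : 𝔸), (x : 𝔸)⁆ : 𝔸), (x : 𝔸)⁆ + ⁅(u : 𝔸), (s' : 𝔸)⁆)) κ
        (ρ • ((P ⁅(b : 𝔸), (x : 𝔸)⁆ - P ⁅(u : 𝔸), (s : 𝔸)⁆ : m) : 𝔸))
      = ρ ^ 2 * T3N Q P φ u b x s y := by
  have hf := hφ.smooth
  have qs := hN.Qsymm
  obtain ⟨e, he⟩ : ∃ e : m, e = P ⁅(u : 𝔸), (x : 𝔸)⁆ := ⟨_, rfl⟩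
  obtain ⟨p, hp⟩ : ∃ p : m, p = P ⁅(b : 𝔸), (x : 𝔸)⁆ := ⟨_, rfl⟩
  obtain ⟨q, hq⟩ : ∃ q : m, q = P ⁅(u : 𝔸), (s : 𝔸)⁆ := ⟨_, rfl⟩
  have hE : (P (⁅(b : 𝔸), (x : 𝔸)⁆ + ⁅(u : 𝔸), (s : 𝔸)⁆) : m) = p + q := by
    rw [map_add, hp, hq]
  -- the third derivative in the direction `ε'`
  have y1 : D3 φ u (P (⁅(e : 𝔸), (x : 𝔸)⁆ + ⁅(u : 𝔸), (s' : 𝔸)⁆)) b b
      = Q ⁅(x : 𝔸), (y : 𝔸)⁆ e - D2 φ u e (P ⁅(u : 𝔸), (y : 𝔸)⁆) := by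
    rw [D3_symm13 hf hu, ← hy, Q_P hN y (g.add_mem (lm hN e x) (lm hN u s')), map_add]
    have a1 : Q (y : 𝔸) ⁅(e : 𝔸), (x : 𝔸)⁆ = Q ⁅(x : 𝔸), (y : 𝔸)⁆ e := by
      rw [skew (e : 𝔸), map_neg, ← hN.Qinv, skew (y : 𝔸), map_neg, LinearMap.neg_apply, neg_neg]
    have a2 : Q (y : 𝔸) ⁅(u : 𝔸), (s' : 𝔸)⁆ = - D2 φ u e (P ⁅(u : 𝔸), (y : 𝔸)⁆) := by
      rw [he, ← hs', Q_P hN s' (lm hN u y), ← hN.Qinv, qs, skew (y : 𝔸), map_neg]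
    rw [a1, a2]; ring
  have y2 : D4 φ u e e b b = D4 φ u b b e e := by
    rw [D4_symm23 hf hu e e b b, D4_symm12 hf hu e b e b, D4_symm34 hf hu b e e b,
      D4_symm23 hf hu b e b e]
  have y3 : D3 φ u e b (p - q) = D3 φ u b e (p - q) := D3_symm12 hf hu _ _ _
  have k1 := hκ p
  rw [hE, ← he] at k1
  have sub3 : ∀ a c d d' : m, D3 φ u a c (d - d') = D3 φ u a c d - D3 φ u a c d' := by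
    intro a c d d'
    rw [sub_eq_add_neg, D3_add_right hf hu, ← neg_one_smul ℝ d', D3_smul_right hf hu]; ring
  have sub2 : ∀ c d d' : m, D2 φ u c (d - d') = D2 φ u c d - D2 φ u c d' := by
    intro c d d'
    rw [sub_eq_add_neg, D2_add_right hf hu, ← neg_one_smul ℝ d', D2_smul_right hf hu]; ring
  have hPD : (P (ρ • ((p - q : m) : 𝔸)) : m) = ρ • (p - q) := by
    rw [map_smul, hN.red.P_m]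
  have e1 : ρ • (p - q) + ρ • (p + q) = (2 * ρ) • p := by module
  have e2 : (P ⁅(s : 𝔸), (b : 𝔸)⁆ : m) = (-1 : ℝ) • P ⁅(b : 𝔸), (s : 𝔸)⁆ := by
    rw [skew, map_neg, neg_one_smul]
  have e3 : (P ((2 : ℝ) • ⁅(b : 𝔸), (s : 𝔸)⁆ + ⁅(u : 𝔸), (y : 𝔸)⁆) : m)
      = (2 : ℝ) • P ⁅(b : 𝔸), (s : 𝔸)⁆ + P ⁅(u : 𝔸), (y : 𝔸)⁆ := by
    rw [map_add, map_smul]
  unfold Sh T3N
  rw [← he, ← hp, ← hq, hE, hPD, e1, y1, y2, e2, e3]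
  simp only [D2_smul hf hu, D2_smul_right hf hu, D3_smul_right hf hu, D2_add_right hf hu,
    Submodule.coe_smul, map_smul, LinearMap.smul_apply, smul_eq_mul, y3, sub3]
  have k2 : Q (p : 𝔸) κ = D2 φ u p p + D2 φ u p q + D3 φ u b e p := by
    rw [qs, k1, D2_add hf hu, D2_symm hf hu q p]
  have k3 : D2 φ u (p - q) (p - q) = D2 φ u p p - 2 * D2 φ u p q + D2 φ u q q := by
    rw [sub2, D2_symm hf hu _ p, D2_symm hf hu _ q, sub2, sub2, D2_symm hf hu q p]; ring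
  rw [k2, k3]
  push_cast
  ring

end Pool.Agent.helper79.FP
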